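import Pool.Agent.H.MP_123b7c_lc.D
import Pool.Agent.Lib.helper21.CFG

set_option autoImplicit false
set_option linter.unusedVariables false
set_option linter.unusedSectionVars false

/-! Context-free part: pumping, non-self-embedding nonterminals, forks and linear grammars. -/

namespace Pool.Agent.H.MP_123b7c_lc

open List Relation Classical Pool.Agent.Lib.helper21.CFG Symbol

variable {N : Type}

inductive Hl (R : Set (ContextFreeRule ℕ N)) : N → List ℕ → N → List ℕ → Prop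
  | refl (X) : Hl R X [] X []
  | step {X l1 Z l2 u1 v1 u Y v} : ⟨X, l1 ++ nonterminal Z :: l2⟩ ∈ R → Gen R l1 u1 → Gen R l2 v1 →
      Hl R Z u Y v → Hl R X (u1 ++ u) Y (v ++ v1)

variable {R : Set (ContextFreeRule ℕ N)}

theorem gmid {l1 l2 Z u z v} (a : Gen R l1 u) (b : Gen R [nonterminal Z] z) (c : Gen R l2 v) :
    Gen R (l1 ++ nonterminal Z :: l2) (u ++ z ++ v) := by simpa using (a.append b).append c

theorem gsplit {l1 l2 x w} (h : Gen R (l1 ++ x :: l2) w) :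
    ∃ u z v, Gen R l1 u ∧ Gen R [x] z ∧ Gen R l2 v ∧ w = u ++ z ++ v := by
  obtain ⟨u, _, rfl, a, b⟩ := h.split
  obtain ⟨z, v, rfl, c, d⟩ := Gen.split (l := [x]) b
  exact ⟨u, z, v, a, c, d, by simp⟩

theorem Hl.gen {X u Y v w} (h : Hl R X u Y v) (a : Gen R [nonterminal Y] w) :
    Gen R [nonterminal X] (u ++ w ++ v) := by
  induction h with
  | refl => simpa
  | step b c d _ ih => simpa using Gen.one b (gmid c (ih a) d)

theorem Hl.trans {X u Y v u' Z v'} (h : Hl R X u Y v) (a : Hl R Y u' Z v') :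
    Hl R X (u ++ u') Z (v' ++ v) := by
  induction h with
  | refl => simpa
  | step b c d _ ih => simpa using Hl.step b c d (ih a)

theorem Hl.one {X l1 Z l2 u v} (b : ⟨X, l1 ++ nonterminal Z :: l2⟩ ∈ R) (c : Gen R l1 u)
    (d : Gen R l2 v) : Hl R X u Z v := by simpa using Hl.step b c d (.refl Z)

theorem semGen {P : N → List ℕ → Prop} {l w}
    (h : Sem (fun Z z => Gen R [nonterminal Z] z ∧ P Z z) l w) : Gen R l w := by
  induction h with
  | nil => exact .nil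
  | ter t _ ih => exact .ter t ih
  | nt a _ ih => exact a.1.append ih

theorem gind {P : N → List ℕ → Prop} (h : ∀ r ∈ R, ∀ w,
    Sem (fun Z z => Gen R [nonterminal Z] z ∧ P Z z) r.output w → P r.input w) {Y w}
    (a : Gen R [nonterminal Y] w) : P Y w := by
  have := a.sound (I := fun Z z => Gen R [nonterminal Z] z ∧ P Z z)
    fun r b w c => ⟨.one b (semGen c), h r b w c⟩
  simp only [sem_nt, sem_nil] at this
  obtain ⟨u, _, b, rfl, rfl⟩ := this
  simpa using b.2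

theorem sem_app {I : N → List ℕ → Prop} {l1 l2 w} (h : Sem I (l1 ++ l2) w) :
    ∃ u v, Sem I l1 u ∧ Sem I l2 v ∧ w = u ++ v := by
  induction l1 generalizing w with
  | nil => exact ⟨[], w, .nil, h, rfl⟩
  | cons x l ih =>
    rw [cons_append] at h
    cases h with
    | ter t h =>
      obtain ⟨u, v, a, b, rfl⟩ := ih h
      exact ⟨_, v, .ter t a, b, rfl⟩
    | nt c h =>
      obtain ⟨u, v, a, b, rfl⟩ := ih h
      exact ⟨_, v, .nt c a, b, by simp⟩

theorem big {I : N → List ℕ → Prop} {l w m} (h : Sem I l w) (m0 : 0 < m) (a : l.length * m < w.length) :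
    ∃ l1 Z l2 u z v, l = l1 ++ nonterminal Z :: l2 ∧ Sem I l1 u ∧ I Z z ∧ Sem I l2 v ∧
      w = u ++ z ++ v ∧ m < z.length := by
  induction h with
  | nil => simp at a
  | ter t _ ih =>
    obtain ⟨l1, Z, l2, u, z, v, rfl, b, c, d, rfl, e⟩ := ih (by
      simp only [length_cons, Nat.succ_mul] at a; omega)
    exact ⟨_ :: l1, Z, l2, t :: u, z, v, rfl, .ter t b, c, d, rfl, e⟩
  | @nt X l w w' b c ih =>
    by_cases e : m < w.length
    · exact ⟨[], X, l, [], w, w', rfl, .nil, b, c, rfl, e⟩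
    obtain ⟨l1, Z, l2, u, z, v, rfl, b', c', d, rfl, e'⟩ := ih (by
      simp only [length_cons, Nat.succ_mul, length_append] at a; omega)
    exact ⟨_ :: l1, Z, l2, w ++ u, z, v, rfl, .nt b b', c', d, by simp, e'⟩

theorem window {L m : ℕ} (hL : ∀ r ∈ R, r.output.length ≤ L) (m0 : 0 < m) {Y w}
    (h : Gen R [nonterminal Y] w) : m < w.length → ∃ Z u z v, Hl R Y u Z v ∧ Gen R [nonterminal Z] z ∧
      w = u ++ z ++ v ∧ m < z.length ∧ z.length ≤ L * m := by
  refine gind (P := fun Y w => m < w.length → ∃ Z u z v, Hl R Y u Z v ∧ Gen R [nonterminal Z] z ∧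
      w = u ++ z ++ v ∧ m < z.length ∧ z.length ≤ L * m) (fun r a w b c => ?_) h
  by_cases d : w.length ≤ L * m
  · exact ⟨_, [], w, [], .refl _, .one a (semGen b), by simp, c, d⟩
  obtain ⟨X, l⟩ := r
  obtain ⟨l1, Z, l2, u, z, v, rfl, e1, e2, e3, rfl, e⟩ := big b m0
    ((Nat.mul_le_mul_right _ (hL _ a)).trans_lt (not_le.1 d))
  obtain ⟨Z', u', z', v', f1, f2, rfl, f3⟩ := e2.2 e
  exact ⟨Z', _, z', _, .step a (semGen e1) (semGen e3) f1, f2, by simp, f3⟩

theorem inp {Z z} (h : Gen R [nonterminal Z] z) : Z ∈ ContextFreeRule.input '' R := by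
  cases h with
  | nt a => exact ⟨_, a, rfl⟩

theorem exL (hR : R.Finite) : ∃ L, 0 < L ∧ ∀ r ∈ R, r.output.length ≤ L :=
  let ⟨L, h⟩ := (hR.image fun r => r.output.length).bddAbove
  ⟨L + 1, by omega, fun r a => (h ⟨r, a, rfl⟩).trans (by omega)⟩

theorem pump (hR : R.Finite) (S : N) : Pump {w | Gen R [nonterminal S] w} := by
  obtain ⟨L, L0, hL⟩ := exL hR
  have key : ∀ k Y w, Gen R [nonterminal Y] w → L ^ k < w.length →
      (∃ A u v x y t, Hl R Y u A t ∧ Hl R A v A y ∧ Gen R [nonterminal A] x ∧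
        w = u ++ (v ++ x ++ y) ++ t ∧ (v ++ x ++ y).length ≤ L ^ k ∧ v ++ y ≠ []) ∨
      ∃ B : Finset N, k ≤ B.card ∧ ∀ Z ∈ B, ∃ u z v, Hl R Y u Z v ∧ Gen R [nonterminal Z] z ∧
        w = u ++ z ++ v ∧ z.length ≤ L ^ k := by
    intro k
    induction k with
    | zero => exact fun _ _ _ _ => .inr ⟨∅, le_rfl, by simp⟩
    | succ k ih =>
      intro Y w a b
      have c : L ^ k ≤ L ^ (k + 1) := Nat.pow_le_pow_right L0 (by omega)
      obtain ⟨Z, u, z, v, d1, d2, rfl, d3, d4⟩ := window hL (Nat.pow_pos (n := k) L0) a (by omega)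
      rw [← pow_succ'] at d4
      obtain ⟨A, u', v', x, y, t, e1, e2, e3, rfl, e4, e5⟩ | ⟨B, e1, e2⟩ := ih Z z d2 d3
      · exact .inl ⟨A, _, v', x, y, _, d1.trans e1, e2, e3, by simp, by omega, e5⟩
      by_cases f : Z ∈ B
      · obtain ⟨v', x, y, f1, f2, rfl, f3⟩ := e2 Z f
        refine .inl ⟨Z, u, v', x, y, v, d1, f1, f2, rfl, d4, fun e => ?_⟩
        obtain ⟨rfl, rfl⟩ := append_eq_nil_iff.1 e
        simp at d3
        omega
      · refine .inr ⟨insert Z B, by rw [Finset.card_insert_of_notMem f]; omega, fun W e => ?_⟩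
        obtain rfl | e := Finset.mem_insert.1 e
        · exact ⟨u, z, v, d1, d2, rfl, d4⟩
        · obtain ⟨u', z', v', f1, f2, rfl, f3⟩ := e2 W e
          exact ⟨_, z', _, d1.trans f1, f2, by simp, by omega⟩
  refine ⟨L ^ ((hR.image ContextFreeRule.input).toFinset.card + 1), fun w a b => ?_⟩
  obtain ⟨A, u, v, x, y, t, e1, e2, e3, rfl, e4, e5⟩ | ⟨B, e1, e2⟩ := key _ S w a b
  · refine ⟨u, v, x, y, t, rfl, e4, e5, fun i => e1.gen ?_⟩
    induction i with
    | zero => simpa [pw] using e2.gen e3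
    | succ i ih =>
      have := e2.gen ih
      rw [pw, pw, replicate_succ, replicate_succ' (a := y)]
      simpa [pw] using this
  · have := Finset.card_le_card (s := B) (t := (hR.image ContextFreeRule.input).toFinset) fun Z e => by
      obtain ⟨_, _, _, -, f, -⟩ := e2 Z e
      simpa using inp f
    omega

theorem rcong {A B : Language ℕ} (h : A.IsRegular) (e : ∀ w, w ∈ A ↔ w ∈ B) : B.IsRegular :=
  (Set.ext e : A = B) ▸ h

theorem finReg {A : Language ℕ} (h : Set.Finite A) : A.IsRegular := by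
  refine .of_finite_range_leftQuotient ((h.biUnion fun w _ => finite_toSet w.tails).finite_subsets.subset ?_)
  rintro _ ⟨x, rfl⟩ w e
  exact Set.mem_biUnion e ((mem_tails _ _).2 ⟨x, rfl⟩)

inductive LG (S : Set (N × Language ℕ × Option N × Language ℕ)) : Option N → List ℕ → Prop
  | nil : LG S none []
  | step {X A o B u v w} : (X, A, o, B) ∈ S → u ∈ A → v ∈ B → LG S o w → LG S (some X) (u ++ w ++ v)

theorem regR {S : Set (N × Language ℕ × Option N × Language ℕ)} (hS : S.Finite)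
    (h : ∀ s ∈ S, s.2.1.IsRegular ∧ ∀ v ∈ s.2.2.2, v = []) (o) : Language.IsRegular {w | LG S o w} := by
  obtain ⟨I, hI⟩ : ∃ I, (insert (1, none) (⋃ s ∈ S, Set.range s.2.1.leftQuotient ×ˢ {s.2.2.1}) :
      Set (Language ℕ × Option N)) = I := ⟨_, rfl⟩
  have fI : I.Finite := hI ▸ (hS.biUnion fun s a =>
    (h s a).1.finite_range_leftQuotient.prod (Set.finite_singleton _)).insert _
  have key : ∀ o z, LG S o z → ∀ x w, z = x ++ w → ∃ i ∈ I, (∃ a ∈ i.1, ∃ b, LG S i.2 b ∧ w = a ++ b) ∧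
      ∀ a ∈ i.1, ∀ b, LG S i.2 b → LG S o (x ++ (a ++ b)) := by
    intro o z k
    induction k with
    | nil =>
      intro x w e
      obtain ⟨rfl, rfl⟩ := append_eq_nil_iff.1 e.symm
      exact ⟨(1, none), hI ▸ .inl rfl, ⟨[], rfl, [], .nil, rfl⟩, by rintro _ ⟨⟩ _ ⟨⟩; exact .nil⟩
    | @step X A o B u v z a b c d ih =>
      obtain rfl := (h _ a).2 v c
      intro x w e
      rw [append_nil] at e
      obtain ⟨x', rfl, rfl⟩ | ⟨u', rfl, rfl⟩ := append_eq_append_iff.1 e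
      · obtain ⟨i, h1, h2, h3⟩ := ih x' w rfl
        exact ⟨i, h1, h2, fun a' e b' f => by simpa using LG.step a b c (h3 a' e b' f)⟩
      · exact ⟨(A.leftQuotient x, o), hI ▸ .inr (Set.mem_biUnion a ⟨⟨x, rfl⟩, rfl⟩), ⟨u', b, z, d, rfl⟩,
          fun a' e b' f => by simpa using LG.step a (u := x ++ a') e c f⟩
  refine .of_finite_range_leftQuotient ((fI.finite_subsets.image
    fun T => {w | ∃ i ∈ T, ∃ a ∈ i.1, ∃ b, LG S i.2 b ∧ w = a ++ b}).subset ?_)
  rintro _ ⟨x, rfl⟩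
  refine ⟨{i ∈ I | ∀ a ∈ i.1, ∀ b, LG S i.2 b → LG S o (x ++ (a ++ b))}, fun i hi => hi.1, ?_⟩
  ext w
  exact ⟨fun ⟨i, a, b, c, d, e, f⟩ => f ▸ a.2 b c d e,
    fun k => let ⟨i, h1, h2, h3⟩ := key o _ k x w rfl; ⟨i, ⟨h1, h3⟩, h2⟩⟩

theorem regL {S : Set (N × Language ℕ × Option N × Language ℕ)} (hS : S.Finite)
    (h : ∀ s ∈ S, s.2.2.2.IsRegular ∧ ∀ v ∈ s.2.1, v = []) (o) : Language.IsRegular {w | LG S o w} := by
  have k : ∀ S S' : Set (N × Language ℕ × Option N × Language ℕ), (∀ X A o B, (X, A, o, B) ∈ S →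
      (X, B.reverse, o, A.reverse) ∈ S') → ∀ o w, LG S o w → LG S' o w.reverse := fun S S' e o w a => by
    induction a with
    | nil => exact .nil
    | step a b c _ ih =>
      simpa using LG.step (e _ _ _ _ a) (Language.reverse_mem_reverse.2 c)
        (Language.reverse_mem_reverse.2 b) ih
  have := (regR (hS.image fun s => (s.1, s.2.2.2.reverse, s.2.2.1, s.2.1.reverse)) (by
    rintro _ ⟨s, a, rfl⟩
    exact ⟨(h s a).1.reverse, fun v e => by simpa using (h s a).2 _ e⟩) o).reverse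
  refine rcong this fun w => ⟨fun a => ?_, fun a => k _ _ (fun X A o B e => by exact ⟨_, e, rfl⟩) o w a⟩
  have := k _ S (by rintro _ _ _ _ ⟨s, a, ⟨⟩⟩; simpa) o _ a
  rwa [reverse_reverse] at this

theorem regMul {A B : Language ℕ} (a : A.IsRegular) (b : B.IsRegular) : (A * B).IsRegular := by
  have := regR (S := {(true, A, some false, 1), (false, B, none, 1)}) (Set.toFinite _)
    (by rintro _ (rfl | rfl) <;> exact ⟨‹_›, fun _ e => e⟩) (some true)
  refine rcong this fun w => ⟨?_, ?_⟩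
  · rintro (_ | ⟨⟨⟨⟩⟩ | ⟨⟨⟩⟩, c, ⟨⟩, _ | ⟨⟨⟨⟩⟩ | ⟨⟨⟩⟩, d, ⟨⟩, ⟨⟩⟩⟩)
    exact ⟨_, c, _, d, by simp⟩
  · rintro ⟨u, c, v, d, rfl⟩
    have := LG.step (S := {(true, A, some false, 1), (false, B, none, 1)}) (.inl rfl) c rfl
      (.step (.inr rfl) d rfl .nil)
    simp only [append_nil] at this
    exact this

theorem regList {l : List (Symbol ℕ N)}
    (h : ∀ Z, nonterminal Z ∈ l → Language.IsRegular {w | Gen R [nonterminal Z] w}) :
    Language.IsRegular {w | Gen R l w} := by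
  induction l with
  | nil => exact finReg ((Set.finite_singleton []).subset (by rintro _ ⟨⟩; rfl))
  | cons x l ih =>
    have : Language.IsRegular {w | Gen R [x] w} := by
      obtain t | Z := x
      · exact finReg ((Set.finite_singleton [t]).subset (by rintro _ (_ | ⟨_, ⟨⟩⟩); rfl))
      · exact h Z mem_cons_self
    refine rcong (regMul this (ih fun Z e => h Z (mem_cons_of_mem _ e))) fun w => ⟨?_, fun a => ?_⟩
    · rintro ⟨u, a, v, b, rfl⟩
      exact Gen.append a b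
    · obtain ⟨u, v, rfl, b, c⟩ := Gen.split (l := [x]) a
      exact ⟨u, b, v, c, rfl⟩

def Bl (R : Set (ContextFreeRule ℕ N)) (F : Language ℕ → Language ℕ → Prop) :
    Set (N × Language ℕ × Option N × Language ℕ) :=
  {s | ∃ l1 l2, ⟨s.1, l1 ++ s.2.2.1.toList.map nonterminal ++ l2⟩ ∈ R ∧ s.2.1 = {w | Gen R l1 w} ∧
    s.2.2.2 = {w | Gen R l2 w} ∧ s.2.1.IsRegular ∧ s.2.2.2.IsRegular ∧ F s.2.1 s.2.2.2}

theorem Bl_fin (hR : R.Finite) (F) : (Bl R F).Finite := by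
  have k := hR.biUnion fun r _ => finite_toSet r.output.sublists
  have k' := k.image fun l => ({w | Gen R l w} : Language ℕ)
  refine ((hR.image (·.input)).prod (k'.prod ((k.preimage (f := fun o : Option N =>
    o.toList.map nonterminal) ?_).prod k'))).subset ?_
  · rintro (_ | _) - (_ | _) - <;> simp
  · rintro s ⟨l1, l2, a, b, c, -⟩
    exact ⟨⟨_, a, rfl⟩, ⟨l1, Set.mem_biUnion a (by simp), b.symm⟩, Set.mem_biUnion a
      (mem_sublists.2 ((sublist_append_right _ _).trans (sublist_append_left _ _))),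
      l2, Set.mem_biUnion a (by simp), c.symm⟩

theorem Bl_iff {F} {D : N → Prop} (hD : ∀ X l w, ⟨X, l⟩ ∈ R → D X → Gen R l w →
    ∃ l1 o l2, l = l1 ++ (Option.toList o).map nonterminal ++ l2 ∧ (∀ Z, o = some Z → D Z) ∧
      Language.IsRegular {w | Gen R l1 w} ∧ Language.IsRegular {w | Gen R l2 w} ∧
        F {w | Gen R l1 w} {w | Gen R l2 w}) {Y} (hY : D Y) :
    {w | LG (Bl R F) (some Y) w} = {w | Gen R [nonterminal Y] w} := by
  have k : ∀ o w, LG (Bl R F) o w → Gen R (o.toList.map nonterminal) w := fun o w h => by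
    induction h with
    | nil => exact .nil
    | step a b c _ ih =>
      obtain ⟨l1, l2, a, rfl, rfl, -⟩ := a
      exact .one a ((Gen.append b ih).append c)
  refine Set.ext fun w => ⟨k _ w, fun h => gind (P := fun Y w => D Y → LG (Bl R F) (some Y) w)
    (fun ⟨X, l⟩ a w b c => ?_) h hY⟩
  obtain ⟨l1, o, l2, rfl, e1, e2, e3, e4⟩ := hD X l w a c (semGen b)
  obtain ⟨_, v, b1, b2, rfl⟩ := sem_app b
  obtain ⟨u, z, b3, b4, rfl⟩ := sem_app b1
  refine .step ⟨l1, l2, a, rfl, rfl, e2, e3, e4⟩ (semGen b3) (semGen b2) ?_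
  obtain _ | Z := o
  · cases b4
    exact .nil
  · obtain _ | _ | ⟨f, ⟨⟩⟩ := b4
    simpa using f.2 (e1 Z rfl)

theorem uniq {C : N → Prop} {l : List (Symbol ℕ N)} (h : ∀ m1 Z1 m2 Z2 m3,
    l = m1 ++ nonterminal Z1 :: (m2 ++ nonterminal Z2 :: m3) → C Z1 → C Z2 → False) :
    (∀ W, nonterminal W ∈ l → ¬ C W) ∨ ∃ l1 Z l2, l = l1 ++ nonterminal Z :: l2 ∧ C Z ∧
      (∀ W, nonterminal W ∈ l1 → ¬ C W) ∧ ∀ W, nonterminal W ∈ l2 → ¬ C W := by
  refine or_iff_not_imp_left.2 fun a => ?_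
  simp only [not_forall, not_not] at a
  obtain ⟨Z, a, b⟩ := a
  obtain ⟨l1, l2, rfl⟩ := append_of_mem a
  refine ⟨l1, Z, l2, rfl, b, fun W c d => ?_, fun W c d => ?_⟩ <;>
    obtain ⟨m1, m2, rfl⟩ := append_of_mem c
  exacts [h m1 W m2 Z l2 (by simp) d b, h l1 Z m1 W m2 rfl b d]

def SE (R : Set (ContextFreeRule ℕ N)) (X : N) : Prop :=
  ∃ A x y u v w, Hl R X x A y ∧ Hl R A u A v ∧ Gen R [nonterminal A] w ∧ u ≠ [] ∧ v ≠ []

theorem child {X l w Z} (a : ⟨X, l⟩ ∈ R) (b : Gen R l w) (c : nonterminal Z ∈ l) :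
    ∃ u z v, Hl R X u Z v ∧ Gen R [nonterminal Z] z := by
  obtain ⟨l1, l2, rfl⟩ := append_of_mem c
  obtain ⟨u, z, v, d, e, f, -⟩ := gsplit b
  exact ⟨u, z, v, .one a d f, e⟩

theorem nse (hR : R.Finite) (X : N) : ¬ SE R X → Language.IsRegular {w | Gen R [nonterminal X] w} := by
  generalize hn : {Y | (∃ u v, Hl R X u Y v) ∧ ∃ w, Gen R [nonterminal Y] w}.ncard = n
  induction n using Nat.strong_induction_on generalizing X with
  | _ n ih =>
  intro h
  by_cases h0 : ∀ w, Gen R [nonterminal X] w → w = []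
  · exact finReg ((Set.finite_singleton []).subset h0)
  simp only [not_forall] at h0
  obtain ⟨w0, h0, h1⟩ := h0
  have hc : (∀ a b, Hl R X a X b → b = []) ∨ ∀ a b, Hl R X a X b → a = [] := by
    by_contra k
    simp only [not_or, not_forall] at k
    obtain ⟨⟨a, b, c, d⟩, a', b', c', d'⟩ := k
    exact h ⟨X, [], [], _, _, w0, .refl _, c.trans c', h0, by simp [d'], by simp [d]⟩
  obtain ⟨C, hC⟩ : ∃ C : N → Prop, ∀ Y, C Y ↔ (∃ u v, Hl R X u Y v) ∧ ∃ u v, Hl R Y u X v :=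
    ⟨_, fun _ => .rfl⟩
  have cy : ∀ Y l1 Z l2 u v, ⟨Y, l1 ++ nonterminal Z :: l2⟩ ∈ R → C Y → C Z → Gen R l1 u → Gen R l2 v →
      ∃ a b, Hl R X a X b ∧ (a = [] → u = []) ∧ (b = [] → v = []) := fun Y l1 Z l2 u v a b c d e => by
    obtain ⟨⟨_, _, b⟩, -⟩ := (hC _).1 b
    obtain ⟨-, _, _, c⟩ := (hC _).1 c
    exact ⟨_, _, b.trans (.step a d e c), by simp +contextual, by simp +contextual⟩
  have key : ∀ Y l w, ⟨Y, l⟩ ∈ R → C Y → Gen R l w → Language.IsRegular {w | Gen R l w} ∨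
      ∃ l1 Z l2, l = l1 ++ nonterminal Z :: l2 ∧ C Z ∧ Language.IsRegular {w | Gen R l1 w} ∧
        Language.IsRegular {w | Gen R l2 w} := fun Y l w a b c => by
    have k : ∀ W, nonterminal W ∈ l → ¬ C W → Language.IsRegular {w | Gen R [nonterminal W] w} :=
      fun W d e => by
        obtain ⟨u, z, v, f, f'⟩ := child a c d
        obtain ⟨⟨_, _, b'⟩, -⟩ := (hC _).1 b
        have q := b'.trans f
        refine ih _ (hn ▸ Set.ncard_lt_ncard ⟨fun A e => ⟨let ⟨_, _, e⟩ := e.1; ⟨_, _, q.trans e⟩, e.2⟩,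
          fun k => e ((hC _).2 ⟨⟨_, _, q⟩, (k ⟨⟨_, _, .refl X⟩, w0, h0⟩).1⟩)⟩
          ((hR.image _).subset fun A e => let ⟨_, e⟩ := e.2; inp e)) W rfl
          fun ⟨A, x, y, u, v, w, e1, e2⟩ => h ⟨A, _, _, u, v, w, q.trans e1, e2⟩
    refine (uniq (C := C) (l := l) ?_).imp (fun d => regList fun W e => k W e (d W e))
      fun ⟨l1, Z, l2, e, d1, d2, d3⟩ => ⟨l1, Z, l2, e, d1,
        regList fun W f => k W (by simp [e, f]) (d2 W f), regList fun W f => k W (by simp [e, f]) (d3 W f)⟩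
    rintro m1 Z1 m2 Z2 m3 rfl d1 d2
    obtain ⟨u1, -, _, e1, -, e, -⟩ := gsplit c
    obtain ⟨u2, -, u3, e2, -, e3, -⟩ := gsplit e
    obtain ⟨-, _, _, f1⟩ := (hC _).1 d1
    obtain ⟨-, _, _, f2⟩ := (hC _).1 d2
    obtain ⟨_, _, k1, -, k2⟩ := cy _ _ _ _ _ _ a b d1 e1 (gmid e2 (f2.gen h0) e3)
    obtain ⟨_, _, k3, k4, -⟩ := cy Y (m1 ++ nonterminal Z1 :: m2) Z2 m3 _ _ (by simpa) b d2
      (gmid e1 (f1.gen h0) e2) e3
    exact hc.elim (fun q => by simpa [h1] using k2 (q _ _ k1)) fun q => by simpa [h1] using k4 (q _ _ k3)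
  have r0 : Language.IsRegular {w | Gen R [] w} := regList (by simp)
  have hX := (hC X).2 ⟨⟨_, _, .refl X⟩, _, _, .refl X⟩
  obtain hc | hc := hc
  · rw [← Bl_iff (F := fun _ B => ∀ v ∈ B, v = []) (D := C) (fun Y l w a b c => ?_) hX]
    · exact regR (Bl_fin hR _) (fun s ⟨_, _, _, _, _, a, _, b⟩ => ⟨a, b⟩) _
    obtain d | ⟨l1, Z, l2, rfl, d1, d2, d3⟩ := key Y l w a b c
    · exact ⟨l, none, [], by simp, nofun, d, r0, by rintro _ ⟨⟩; rfl⟩
    · obtain ⟨u, -, -, e, -⟩ := gsplit c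
      exact ⟨l1, some Z, l2, by simp, by rintro _ ⟨⟩; exact d1, d2, d3, fun v f =>
        let ⟨_, _, k, _, k'⟩ := cy _ _ _ _ _ _ a b d1 e f; k' (hc _ _ k)⟩
  · rw [← Bl_iff (F := fun A _ => ∀ v ∈ A, v = []) (D := C) (fun Y l w a b c => ?_) hX]
    · exact regL (Bl_fin hR _) (fun s ⟨_, _, _, _, _, _, a, b⟩ => ⟨a, b⟩) _
    obtain d | ⟨l1, Z, l2, rfl, d1, d2, d3⟩ := key Y l w a b c
    · exact ⟨[], none, l, by simp, nofun, r0, d, by rintro _ ⟨⟩; rfl⟩
    · obtain ⟨-, -, v, -, -, e, -⟩ := gsplit c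
      exact ⟨l1, some Z, l2, by simp, by rintro _ ⟨⟩; exact d1, d2, d3, fun u f =>
        let ⟨_, _, k, k', _⟩ := cy _ _ _ _ _ _ a b d1 f e; k' (hc _ _ k)⟩

def Fork (R : Set (ContextFreeRule ℕ N)) (S : N) : Prop :=
  ∃ A x y l1 B l2 C l3 w, Hl R S x A y ∧ ⟨A, l1 ++ nonterminal B :: (l2 ++ nonterminal C :: l3)⟩ ∈ R ∧
    Gen R (l1 ++ nonterminal B :: (l2 ++ nonterminal C :: l3)) w ∧ SE R B ∧ SE R C

theorem nofork (hR : R.Finite) {S : N} (h : ¬ Fork R S) :
    {w | LG (Bl R fun _ _ => True) (some S) w} = {w | Gen R [nonterminal S] w} := by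
  refine Bl_iff (D := fun Y => ∃ u v, Hl R S u Y v) (fun Y l w a ⟨u, v, b⟩ c => ?_) ⟨_, _, .refl S⟩
  obtain d | ⟨l1, Z, l2, rfl, d1, d2, d3⟩ := uniq (C := SE R) (l := l) fun m1 Z1 m2 Z2 m3 e d1 d2 =>
    h ⟨Y, u, v, m1, Z1, m2, Z2, m3, w, b, e ▸ a, e ▸ c, d1, d2⟩
  · exact ⟨l, none, [], by simp, nofun, regList fun W e => nse hR W (d W e), regList (by simp), trivial⟩
  · obtain ⟨_, _, _, e, -⟩ := child a c (Z := Z) (by simp)
    exact ⟨l1, some Z, l2, by simp, by rintro _ ⟨⟩; exact ⟨_, _, b.trans e⟩,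
      regList fun W e => nse hR W (d2 W e), regList fun W e => nse hR W (d3 W e), trivial⟩

end Pool.Agent.H.MP_123b7c_lc
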