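import Mathlib

set_option autoImplicit false

/-! EOL forms, grammar forms and their language families. -/

namespace Pool.Agent.H.MP_123b7c_lc

structure EOL where
  NT : Type
  start : Symbol ℕ NT
  rules : Finset (Symbol ℕ NT × List (Symbol ℕ NT))
  tot : ∀ X, (X = start ∨ ∃ r ∈ rules, X ∈ r.2) → ∃ α, (X, α) ∈ rules

def EOL.Step (F : EOL) (α β : List (Symbol ℕ F.NT)) : Prop :=
  ∃ βs, List.Forall₂ (fun X γ => (X, γ) ∈ F.rules) α βs ∧ β = βs.flatten

def EOL.lang (F : EOL) : Language ℕ :=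
  {w | Relation.ReflTransGen F.Step [F.start] (w.map .terminal)}

def smap {M N : Type} (h : ℕ → ℕ) (f : M → N) : Symbol ℕ M → Symbol ℕ N
  | .terminal t => .terminal (h t)
  | .nonterminal X => .nonterminal (f X)

def EInt (F' F : EOL) : Prop := ∃ (h : ℕ → ℕ) (f : F'.NT → F.NT), smap h f F'.start = F.start ∧
  ∀ r ∈ F'.rules, (smap h f r.1, r.2.map (smap h f)) ∈ F.rules

def CInt (G' G : ContextFreeGrammar ℕ) : Prop := ∃ (h : ℕ → ℕ) (f : G'.NT → G.NT),
  f G'.initial = G.initial ∧ ∀ r ∈ G'.rules, ⟨f r.input, r.output.map (smap h f)⟩ ∈ G.rules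

def famE (F : EOL) : Set (Language ℕ) := {L | ∃ F', EInt F' F ∧ L = F'.lang}

def famG (G : ContextFreeGrammar ℕ) : Set (Language ℕ) := {L | ∃ G', CInt G' G ∧ L = G'.language}

def isNT {N : Type} : Symbol ℕ N → Bool
  | .terminal _ => false
  | .nonterminal _ => true

def LIN : Set (Language ℕ) :=
  {L | ∃ G : ContextFreeGrammar ℕ, (∀ r ∈ G.rules, r.output.countP isNT ≤ 1) ∧ L = G.language}

/-- containment of families, languages being compared up to the empty word -/
def Sub (A B : Set (Language ℕ)) : Prop := ∀ L ∈ A, ∃ M ∈ B, ∀ w, w ≠ [] → (w ∈ L ↔ w ∈ M)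

end Pool.Agent.H.MP_123b7c_lc
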