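import Pool.Agent.H.MP_123b7c_lc.A
import Pool.Agent.H.MP_123b7c_lc.Defs

set_option autoImplicit false
set_option linter.unusedVariables false
set_option linter.unusedSectionVars false

/-! Linear grammars from linear systems; the two-bracket interpretation of a fork. -/

namespace Pool.Agent.H.MP_123b7c_lc

open List Relation Classical Pool.Agent.Lib.helper21.CFG Symbol

variable {N : Type}

theorem finL {α : Type} {s : Set α} (hs : s.Finite) (n : ℕ) :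
    {l : List α | l.length ≤ n ∧ ∀ x ∈ l, x ∈ s}.Finite :=
  have := hs.to_subtype
  ((finite_length_le s n).image (map Subtype.val)).subset fun l ⟨a, b⟩ =>
    ⟨l.attachWith _ b, by simpa, by simp [attachWith, map_pmap]⟩

theorem finR {R : Set (ContextFreeRule ℕ N)} {F : Set N} {T : Set ℕ} (hF : F.Finite) (hT : T.Finite) (n : ℕ)
    (h : ∀ r ∈ R, r.input ∈ F ∧ r.output.length ≤ n ∧ (∀ t, terminal t ∈ r.output → t ∈ T) ∧
      ∀ X, nonterminal X ∈ r.output → X ∈ F) : R.Finite :=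
  ((hF.prod (finL ((hT.image terminal).union (hF.image nonterminal)) n)).image
    fun x => ⟨x.1, x.2⟩).subset fun r a => ⟨(r.input, r.output), ⟨(h r a).1, (h r a).2.1, by
      rintro (t | X) e
      exacts [.inl ⟨t, (h r a).2.2.1 t e, rfl⟩, .inr ⟨X, (h r a).2.2.2 X e, rfl⟩]⟩, rfl⟩

inductive Ru (S : Set (N × Language ℕ × Option N × Language ℕ)) (T : Set ℕ) (QQ : Set (Language ℕ))
    (O : Set (Option N)) : ContextFreeRule ℕ (Language ℕ × Option N × Language ℕ) → Prop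
  | l {Q o M t} : Q ∈ QQ → o ∈ O → M ∈ QQ → t ∈ T →
      Ru S T QQ O ⟨(Q, o, M), [terminal t, nonterminal (Q.leftQuotient [t], o, M)]⟩
  | r {Q o M t} : Q ∈ QQ → o ∈ O → M ∈ QQ → t ∈ T →
      Ru S T QQ O ⟨(Q, o, M), [nonterminal (Q, o, M.leftQuotient [t]), terminal t]⟩
  | e {Q M} : Q ∈ QQ → M ∈ QQ → [] ∈ Q → [] ∈ M → Ru S T QQ O ⟨(Q, none, M), []⟩
  | s {Q X M A o B} : Q ∈ QQ → some X ∈ O → M ∈ QQ → [] ∈ Q → [] ∈ M → (X, A, o, B) ∈ S →
      Ru S T QQ O ⟨(Q, some X, M), [nonterminal (A, o, B.reverse)]⟩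

theorem lin {S : Set (N × Language ℕ × Option N × Language ℕ)} (hS : S.Finite)
    (hr : ∀ s ∈ S, s.2.1.IsRegular ∧ s.2.2.2.IsRegular) {T : Set ℕ} (hT : T.Finite) (o0)
    (hw : ∀ w, LG S o0 w → ∀ t ∈ w, t ∈ T) : {w | LG S o0 w} ∈ LIN := by
  obtain ⟨QQ, fQ, q0, q1, q2⟩ : ∃ QQ : Set (Language ℕ), QQ.Finite ∧ 1 ∈ QQ ∧
      (∀ s ∈ S, s.2.1 ∈ QQ ∧ s.2.2.2.reverse ∈ QQ) ∧ ∀ Q ∈ QQ, ∀ t, Q.leftQuotient [t] ∈ QQ := by
    obtain ⟨BB, fB, rB, b0, b1⟩ : ∃ BB : Set (Language ℕ), BB.Finite ∧ (∀ A ∈ BB, A.IsRegular) ∧ 1 ∈ BB ∧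
        ∀ s ∈ S, s.2.1 ∈ BB ∧ s.2.2.2.reverse ∈ BB := by
      refine ⟨_, ((hS.image fun s => s.2.1).union (hS.image fun s => s.2.2.2.reverse)).insert 1, ?_,
        .inl rfl, fun s a => ⟨.inr (.inl ⟨s, a, rfl⟩), .inr (.inr ⟨s, a, rfl⟩)⟩⟩
      rintro _ (rfl | ⟨s, a, rfl⟩ | ⟨s, a, rfl⟩)
      exacts [finReg (Set.finite_singleton _), (hr s a).1, (hr s a).2.reverse]
    have k : ∀ A ∈ BB, ∀ x, A.leftQuotient x ∈ ⋃ A ∈ BB, Set.range (Language.leftQuotient A) :=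
      fun A a x => Set.mem_biUnion a ⟨x, rfl⟩
    refine ⟨_, fB.biUnion fun A a => (rB A a).finite_range_leftQuotient, k _ b0 [],
      fun s a => ⟨k _ (b1 s a).1 [], k _ (b1 s a).2 []⟩, fun Q a t => ?_⟩
    obtain ⟨A, b, x, rfl⟩ := Set.mem_iUnion₂.1 a
    exact Language.leftQuotient_append .. ▸ k A b (x ++ [t])
  obtain ⟨O, fO, o1, o2, o3⟩ : ∃ O : Set (Option N), O.Finite ∧ none ∈ O ∧ o0 ∈ O ∧
      ∀ s ∈ S, s.2.2.1 ∈ O := ⟨insert none (insert o0 ((·.2.2.1) '' S)), ((hS.image _).insert _).insert _,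
        .inl rfl, .inr (.inl rfl), fun s a => .inr (.inr ⟨s, a, rfl⟩)⟩
  have fR : {r | Ru S T QQ O r}.Finite := finR (fQ.prod (fO.prod fQ)) hT 2 (by
    rintro _ (⟨a, b, c, d⟩ | ⟨a, b, c, d⟩ | ⟨a, c, _, _⟩ | ⟨a, b, c, _, _, d⟩) <;> simp [*]
    exact ⟨(q1 _ d).1, o3 _ d, (q1 _ d).2⟩)
  refine ⟨⟨_, (1, o0, 1), fR.toFinset⟩, fun r a => ?_, Set.ext fun w => ?_⟩
  · obtain _ | _ | _ | _ := fR.mem_toFinset.1 a <;> simp [isNT]
  refine .trans ?_ (mem_language_iff_gen _ w).symm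
  simp only [Set.Finite.coe_toFinset]
  refine ⟨fun h => ?_, fun h => ?_⟩
  · have pl : ∀ o M w, o ∈ O → M ∈ QQ → (∀ Q ∈ QQ, [] ∈ Q → Gen {r | Ru S T QQ O r} [nonterminal (Q, o, M)] w) →
        ∀ a Q, Q ∈ QQ → a ∈ Q → (∀ t ∈ a, t ∈ T) →
          Gen {r | Ru S T QQ O r} [nonterminal (Q, o, M)] (a ++ w) := fun o M w b c d a => by
      induction a with
      | nil => exact fun Q e f _ => d Q e f
      | cons t a ih =>
        exact fun Q e f k => .one (Ru.l e b c (k t mem_cons_self))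
          (.ter t (ih _ (q2 Q e t) f fun t e => k t (mem_cons_of_mem _ e)))
    have pr : ∀ Q o w, o ∈ O → Q ∈ QQ → (∀ M ∈ QQ, [] ∈ M → Gen {r | Ru S T QQ O r} [nonterminal (Q, o, M)] w) →
        ∀ a M, M ∈ QQ → a ∈ M → (∀ t ∈ a, t ∈ T) →
          Gen {r | Ru S T QQ O r} [nonterminal (Q, o, M)] (w ++ a.reverse) := fun Q o w b c d a => by
      induction a with
      | nil => exact fun Q e f _ => by simpa using d Q e f
      | cons t a ih =>
        exact fun M e f k => .one (Ru.r c b e (k t mem_cons_self)) (by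
          simpa using (ih _ (q2 M e t) f fun t e => k t (mem_cons_of_mem _ e)).append (.ter t .nil))
    have key : ∀ o w, LG S o w → o ∈ O → (∀ t ∈ w, t ∈ T) → ∀ Q ∈ QQ, [] ∈ Q → ∀ M ∈ QQ, [] ∈ M →
        Gen {r | Ru S T QQ O r} [nonterminal (Q, o, M)] w := fun o w h => by
      induction h with
      | nil => exact fun _ _ Q a b M c d => .one (Ru.e a c b d) .nil
      | @step X A o B u v w a b c _ ih =>
        refine fun e k Q f f' M g g' => .one (Ru.s f e g f' g' a) ?_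
        rw [append_assoc]
        refine pl o _ _ (o3 _ a) (q1 _ a).2 (fun Q f f' => ?_) u A (q1 _ a).1 b fun t e => k t (by simp [e])
        simpa using pr Q o w (o3 _ a) f (ih (o3 _ a) (fun t e => k t (by simp [e])) Q f f') v.reverse _
          (q1 _ a).2 (Language.reverse_mem_reverse.2 c) fun t e => k t (by simp at e; simp [e])
    exact key _ _ h o2 (hw w h) _ q0 rfl _ q0 rfl
  · have := h.sound (I := fun x w => ∃ a b c, a ∈ x.1 ∧ LG S x.2.1 b ∧ c ∈ x.2.2 ∧ w = a ++ b ++ c.reverse) (by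
      rintro _ (_ | _ | ⟨_, _, a, b⟩ | ⟨_, _, _, a, b, c⟩) w <;> simp only [sem_ter, sem_nt, sem_nil]
      · rintro ⟨_, ⟨_, _, ⟨a, b, c, e, f, g, rfl⟩, rfl, rfl⟩, rfl⟩
        exact ⟨_ :: a, b, c, e, f, g, by simp⟩
      · rintro ⟨_, _, ⟨a, b, c, e, f, g, rfl⟩, ⟨_, rfl, rfl⟩, rfl⟩
        exact ⟨a, b, _ :: c, e, f, g, by simp⟩
      · rintro rfl
        exact ⟨[], [], [], a, .nil, b, rfl⟩
      · rintro ⟨_, _, ⟨x, y, z, e, f, g, rfl⟩, rfl, rfl⟩
        exact ⟨[], _, [], a, .step c e g f, b, by simp⟩)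
    simp only [sem_nt, sem_nil] at this
    obtain ⟨_, _, ⟨_, b, _, ⟨⟩, f, ⟨⟩, rfl⟩, rfl, rfl⟩ := this
    simpa using f

variable {R : Set (ContextFreeRule ℕ N)}

theorem letters {l w} (h : Gen R l w) : ∀ t ∈ w, terminal t ∈ l ∨ ∃ r ∈ R, terminal t ∈ r.output := by
  induction h with
  | nil => simp
  | ter t _ ih =>
    intro s e
    obtain rfl | e := mem_cons.1 e
    exacts [.inl mem_cons_self, (ih s e).imp_left (mem_cons_of_mem _)]
  | nt a _ _ ih ih' =>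
    intro s e
    obtain e | e := mem_append.1 e
    exacts [.inr ((ih s e).elim (fun f => ⟨_, a, f⟩) id), (ih' s e).imp_left (mem_cons_of_mem _)]

theorem finS (hR : R.Finite) : {x | ∃ r ∈ R, x ∈ r.output}.Finite :=
  (hR.biUnion fun r _ => finite_toSet r.output).subset fun _ ⟨_, a, b⟩ => Set.mem_biUnion a b

theorem nofork_lin (hR : R.Finite) {S : N} (h : ¬ Fork R S) : {w | Gen R [nonterminal S] w} ∈ LIN := by
  have e := nofork hR h
  exact e ▸ lin (Bl_fin hR _) (fun s ⟨_, _, _, _, _, a, b, _⟩ => ⟨a, b⟩)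
    ((finS hR).preimage (f := terminal) fun _ _ _ _ => Symbol.terminal.inj) _ fun w a t b =>
      (letters (show w ∈ {w | Gen R [nonterminal S] w} from e ▸ a) t b).resolve_left (by simp)

def mk (w : List ℕ) : List ℕ := (w.map (· % 5)).filter (· ≠ 0)

theorem mk_app (x y) : mk (x ++ y) = mk x ++ mk y := by simp [mk]

theorem mk_pl (u : List ℕ) : ∃ u' : List ℕ, u'.map (· / 5) = u ∧ mk u' = [] :=
  ⟨u.map (5 * ·), by simp [Function.comp_def], by simp [mk]⟩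

theorem mk_one {u : List ℕ} (h : u ≠ []) {c} (a : 0 < c) (b : c < 5) :
    ∃ u' : List ℕ, u'.map (· / 5) = u ∧ mk u' = [c] := by
  obtain _ | ⟨t, u⟩ := u
  · exact (h rfl).elim
  obtain ⟨u', d, e⟩ := mk_pl u
  refine ⟨[5 * t + c] ++ u', by simp [d]; omega, ?_⟩
  rw [mk_app, e]
  simp [mk, Nat.mod_eq_of_lt b, a.ne']

def E (s : ℕ) : Language ℕ := {w | ∃ n, w = replicate n s ++ replicate n (s + 1)}
def O (s : ℕ) : Language ℕ := {w | ∃ n, w = replicate n s ++ replicate (n + 1) (s + 1)}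

def MM : Set (Language ℕ) :=
  (fun w => {w}) '' {w | w.length ≤ 1 ∧ ∀ t ∈ w, t ∈ Set.Iio 5} ∪ {E 1, O 1, E 3, O 3, E 1 * E 3}

def sem : Symbol ℕ (N × Language ℕ) → Language ℕ
  | terminal t => {mk [t]}
  | nonterminal x => x.2

def RM (R : Set (ContextFreeRule ℕ N)) : Set (ContextFreeRule ℕ (N × Language ℕ)) :=
  {r | ⟨r.input.1, r.output.map (smap (· / 5) Prod.fst)⟩ ∈ R ∧ r.input.2 ∈ MM ∧
    (∀ x, nonterminal x ∈ r.output → x.2 ∈ MM) ∧ ∀ w ∈ (r.output.map sem).prod, w ∈ r.input.2}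

theorem RM_fin (hR : R.Finite) : (RM R).Finite := by
  obtain ⟨L, -, hL⟩ := exL hR
  refine finR (F := (ContextFreeRule.input '' R ∪ nonterminal ⁻¹' {x | ∃ r ∈ R, x ∈ r.output}) ×ˢ MM)
    (T := ⋃ s ∈ terminal ⁻¹' {x | ∃ r ∈ R, x ∈ r.output}, Set.Iio (5 * s + 5))
    (((hR.image _).union ((finS hR).preimage fun _ _ _ _ => Symbol.nonterminal.inj)).prod
      (((finL (Set.finite_Iio 5) 1).image _).union (Set.toFinite _)))
    (((finS hR).preimage fun _ _ _ _ => Symbol.terminal.inj).biUnion fun _ _ => Set.finite_Iio _) L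
    fun r ⟨a, b, c, _⟩ => ⟨⟨.inl ⟨_, a, rfl⟩, b⟩, by simpa using hL _ a, fun t e =>
      Set.mem_biUnion (x := t / 5) ⟨_, a, mem_map_of_mem e⟩ (by simp only [Set.mem_Iio]; omega),
      fun X e => ⟨.inr ⟨_, a, mem_map_of_mem e⟩, c X e⟩⟩

theorem RM_sound {l w} (h : Gen (RM R) l w) : mk w ∈ (l.map sem).prod := by
  induction h with
  | nil => rfl
  | ter t _ ih => exact (mp_cons _).2 ⟨_, rfl, _, ih, (mk_app [t] _).symm⟩
  | nt a _ _ ih ih' => exact (mp_cons _).2 ⟨_, a.2.2.2 _ ih, _, ih', (mk_app _ _).symm⟩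

theorem lift0 {l w} (h : Gen R l w) : ∀ w' : List ℕ, w'.map (· / 5) = w → (mk w').length ≤ 1 →
    ∃ l' : List (Symbol ℕ (N × Language ℕ)), l'.map (smap (· / 5) Prod.fst) = l ∧
      (∀ x, nonterminal x ∈ l' → x.2 ∈ MM) ∧ Gen (RM R) l' w' ∧ ∀ z ∈ (l'.map sem).prod, z = mk w' := by
  induction h with
  | nil =>
    intro w' a _
    obtain rfl := map_eq_nil_iff.1 a
    exact ⟨[], rfl, by simp, .nil, fun z e => e⟩
  | ter t _ ih =>
    intro w' a b
    obtain ⟨s, w', rfl, rfl, a'⟩ := map_eq_cons_iff.1 a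
    rw [show s :: w' = [s] ++ w' from rfl, mk_app] at b ⊢
    obtain ⟨l', rfl, c, d, e⟩ := ih w' a' (by rw [length_append] at b; omega)
    refine ⟨terminal s :: l', rfl, by simpa using c, .ter s d, fun z f => ?_⟩
    obtain ⟨_, rfl, v, f', rfl⟩ := (mp_cons _).1 f
    rw [e v f']
  | @nt r l w w' a _ _ ih ih' =>
    intro x b c
    obtain ⟨u, v, rfl, b1, b2⟩ := map_eq_append_iff.1 b
    rw [mk_app] at c ⊢
    rw [length_append] at c
    obtain ⟨l1, d1, d2, d3, d4⟩ := ih u b1 (by omega)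
    obtain ⟨l2, rfl, e2, e3, e4⟩ := ih' v b2 (by omega)
    have m : ({mk u} : Language ℕ) ∈ MM := .inl ⟨_, ⟨by omega, fun t e => by
      obtain ⟨s, -, rfl⟩ := mem_map.1 (mem_of_mem_filter e)
      exact Nat.mod_lt _ (by omega)⟩, rfl⟩
    refine ⟨nonterminal (r.input, {mk u}) :: l2, rfl, fun x e => ?_,
      .nt (r := ⟨(r.input, {mk u}), l1⟩) ⟨by rwa [d1], m, d2, d4⟩ d3 e3, fun z f => ?_⟩
    · obtain ⟨⟨⟩⟩ | e := mem_cons.1 e
      exacts [m, e2 x e]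
    · obtain ⟨_, rfl, v, f', rfl⟩ := (mp_cons _).1 f
      rw [e4 v f']

theorem liftH {X u Y v} (h : Hl R X u Y v) : ∀ (u' v' : List ℕ) (M M' : Language ℕ), u'.map (· / 5) = u →
    v'.map (· / 5) = v → (mk u' ++ mk v').length ≤ 1 → M ∈ MM → M' ∈ MM → (mk u' ++ mk v' = [] → M = M') →
      (∀ z ∈ M', mk u' ++ z ++ mk v' ∈ M) → ∀ w, Gen (RM R) [nonterminal (Y, M')] w →
        Gen (RM R) [nonterminal (X, M)] (u' ++ w ++ v') := by
  induction h with
  | refl =>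
    intro u' v' M M' a b _ _ _ c _ w d
    obtain rfl := map_eq_nil_iff.1 a
    obtain rfl := map_eq_nil_iff.1 b
    simpa [c rfl] using d
  | @step X l1 Z l2 u1 v1 u Y v a b c _ ih =>
    intro u' v' M M' d e f m m' g g' w k
    obtain ⟨u1', u2', rfl, d1, d2⟩ := map_eq_append_iff.1 d
    obtain ⟨v2', v1', rfl, e2, e1⟩ := map_eq_append_iff.1 e
    simp only [mk_app, length_append] at f g g'
    obtain ⟨l1', rfl, b2, b3, b4⟩ := lift0 b u1' d1 (by omega)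
    obtain ⟨l2', rfl, c2, c3, c4⟩ := lift0 c v1' e1 (by omega)
    have key : ∀ M'' ∈ MM, (∀ z ∈ M'', mk u1' ++ z ++ mk v1' ∈ M) →
        Gen (RM R) [nonterminal (Z, M'')] (u2' ++ w ++ v2') →
          Gen (RM R) [nonterminal (X, M)] (u1' ++ u2' ++ w ++ (v2' ++ v1')) := fun M'' q q' q'' => by
      refine .one (l := l1' ++ nonterminal (Z, M'') :: l2') ⟨by simpa [smap], m, fun x e => ?_, fun z e => ?_⟩
        (by simpa using gmid b3 q'' c3)
      · obtain e | ⟨⟨⟩⟩ | e : nonterminal x ∈ l1' ∨ x = (Z, M'') ∨ nonterminal x ∈ l2' := by simpa using e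
        exacts [b2 x e, q, c2 x e]
      · obtain ⟨x, z, y, e0, e1, e2, rfl⟩ := (mp_mid _).1 e
        rw [b4 x e1, c4 y e2]
        exact q' z e0
    by_cases q : mk u1' = [] ∧ mk v1' = []
    · simp only [q.1, q.2, nil_append, append_nil] at g g' key
      exact key M m (fun _ => id) (ih u2' v2' M M' d2 e2 (by rw [length_append]; omega) m m' g g' w k)
    · have q1 : mk u2' = [] := by simp only [← length_eq_zero_iff] at q ⊢; omega
      have q2 : mk v2' = [] := by simp only [← length_eq_zero_iff] at q ⊢; omega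
      simp only [q1, q2, nil_append, append_nil] at g'
      exact key M' m' g' (ih u2' v2' M' M' d2 e2 (by simp [q1, q2]) m' m' (fun _ => rfl)
        (by simp [q1, q2]) w k)

theorem liftP {X u Y v M w} (h : Hl R X u Y v) (m : M ∈ MM) (a : Gen (RM R) [nonterminal (Y, M)] w) :
    ∃ w', Gen (RM R) [nonterminal (X, M)] w' ∧ mk w' = mk w := by
  obtain ⟨u', b, b'⟩ := mk_pl u
  obtain ⟨v', c, c'⟩ := mk_pl v
  exact ⟨_, liftH h u' v' M M b c (by simp [*]) m m (fun _ => rfl) (by simp [*]) w a, by simp [mk_app, *]⟩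

theorem SE.lift {X} (h : SE R X) {s} (s0 : 0 < s) (s4 : s < 4) (m : E s ∈ MM) (m' : O s ∈ MM) (n : ℕ) :
    ∃ w, Gen (RM R) [nonterminal (X, E s)] w ∧ mk w = replicate n s ++ replicate n (s + 1) := by
  obtain ⟨A, x, y, u, v, w, a, b, c, d, e⟩ := h
  suffices ∃ w, Gen (RM R) [nonterminal (A, E s)] w ∧ mk w = replicate n s ++ replicate n (s + 1) from
    let ⟨w, f, g⟩ := this; let ⟨w', f', g'⟩ := liftP a m f; ⟨w', f', g'.trans g⟩
  induction n with
  | zero =>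
    obtain _ | _ | ⟨f, g, ⟨⟩⟩ := c
    obtain ⟨w', k, k'⟩ := mk_pl _
    obtain ⟨l, q1, q2, q3, q4⟩ := lift0 g w' k (by simp [k'])
    exact ⟨w', .one ⟨by rwa [q1], m, q2, fun z e => ⟨0, (q4 z e).trans k'⟩⟩ q3, k'⟩
  | succ n ih =>
    obtain ⟨w, f, g⟩ := ih
    obtain ⟨u0, u1, u2⟩ := mk_pl u
    obtain ⟨v0, v1, v2⟩ := mk_pl v
    obtain ⟨u', u3, u4⟩ := mk_one d s0 (by omega)
    obtain ⟨v', v3, v4⟩ := mk_one e (c := s + 1) (by omega) (by omega)
    refine ⟨_, liftH b u' v0 _ (O s) u3 v1 (by simp [*]) m m' (by simp [*]) ?_ _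
      (liftH b u0 v' _ (E s) u1 v3 (by simp [*]) m' m (by simp [*]) ?_ w f), ?_⟩
    · rintro _ ⟨n, rfl⟩
      exact ⟨n + 1, by rw [u4, v2, replicate_succ (a := s)]; simp⟩
    · rintro _ ⟨n, rfl⟩
      exact ⟨n, by rw [u2, v4, replicate_succ']; simp⟩
    · rw [replicate_succ (a := s), replicate_succ']
      simp [mk_app, *]

theorem Fork.lift {S} (h : Fork R S) (n : ℕ) : ∃ w, Gen (RM R) [nonterminal (S, E 1 * E 3)] w ∧
    mk w = replicate n 1 ++ replicate n 2 ++ (replicate n 3 ++ replicate n 4) := by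
  obtain ⟨A, x, y, l1, B, l2, C, l3, w, a, b, c, d, e⟩ := h
  obtain ⟨u1, -, _, c1, -, c', -⟩ := gsplit c
  obtain ⟨u2, -, u3, c2, -, c3, -⟩ := gsplit c'
  obtain ⟨x1, a1, b1⟩ := mk_pl u1
  obtain ⟨x2, a2, b2⟩ := mk_pl u2
  obtain ⟨x3, a3, b3⟩ := mk_pl u3
  obtain ⟨m1, rfl, d1, e1, f1⟩ := lift0 c1 x1 a1 (by simp [b1])
  obtain ⟨m2, rfl, d2, e2, f2⟩ := lift0 c2 x2 a2 (by simp [b2])
  obtain ⟨m3, rfl, d3, e3, f3⟩ := lift0 c3 x3 a3 (by simp [b3])
  obtain ⟨y1, g1, k1⟩ := d.lift (s := 1) (by omega) (by omega) (.inr (by simp)) (.inr (by simp)) n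
  obtain ⟨y2, g2, k2⟩ := e.lift (s := 3) (by omega) (by omega) (.inr (by simp)) (.inr (by simp)) n
  obtain ⟨w', q, q'⟩ := liftP (M := E 1 * E 3) a (.inr (by simp)) (.one
    (l := m1 ++ nonterminal (B, E 1) :: (m2 ++ nonterminal (C, E 3) :: m3))
    ⟨by simpa [smap], .inr (by simp), fun x e => by
      obtain e | ⟨⟨⟩⟩ | e | ⟨⟨⟩⟩ | e : nonterminal x ∈ m1 ∨ x = (B, E 1) ∨ nonterminal x ∈ m2 ∨
        x = (C, E 3) ∨ nonterminal x ∈ m3 := by simpa using e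
      exacts [d1 x e, .inr (by simp), d2 x e, .inr (by simp), d3 x e], fun z e => by
      obtain ⟨z1, z2, _, e0, e1, e2, rfl⟩ := (mp_mid _).1 e
      obtain ⟨z3, z4, z5, e3, e4, e5, rfl⟩ := (mp_mid _).1 e2
      exact ⟨z2, e0, z4, e3, by simp [f1 _ e1, f2 _ e4, f3 _ e5, *]⟩⟩ (gmid e1 g1 (gmid e2 g2 e3)))
  exact ⟨w', q, by simp [mk_app, *]⟩

def cn (k : ℕ) (w : List ℕ) : ℕ := w.countP fun t => t % 5 = k

theorem cn_mk {k} (h : 0 < k) (w) : cn k w = (mk w).count k := by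
  simp only [cn, mk, count, countP_filter, countP_map]
  exact countP_congr fun t _ => by simp; omega

def QK (w : List ℕ) : Prop := cn 1 w = cn 2 w ∧ cn 3 w = cn 4 w ∧
  ∀ x y, w = x ++ y → ∀ k j, 0 < j → j < k → 0 < cn k x → cn j y = 0

theorem qk {w} (h : mk w ∈ E 1 * E 3) : QK w := by
  obtain ⟨_, ⟨n, rfl⟩, _, ⟨m, rfl⟩, e⟩ := h
  refine ⟨by simp [cn_mk, ← e, count_replicate], by simp [cn_mk, ← e, count_replicate], ?_⟩
  rintro x y rfl k j a b c
  have : (mk x ++ mk y).Pairwise (· ≤ ·) := by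
    rw [← mk_app, ← e]
    simp +contextual [pairwise_append, mem_replicate, or_imp]
  rw [cn_mk a, count_eq_zero]
  rw [cn_mk (by omega), count_pos_iff] at c
  exact fun d => b.not_ge ((pairwise_append.1 this).2.2 _ c _ d)

def pp (b : Bool) (t : ℕ) : Bool := t % 5 = cond b 4 1

theorem qk1 {x u y : List ℕ} (b) (h : QK (x ++ u ++ y)) (a : ∀ b, 0 < u.countP (pp b)) :
    (x ++ u ++ y).countP (pp b) ≤ u.length := by
  have a1 : 0 < cn 1 u := a false
  have a4 : 0 < cn 4 u := a true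
  have b2 := h.2.2 x (u ++ y) (by simp) 2 1
  have b3 := h.2.2 x (u ++ y) (by simp) 3 1
  have c2 := h.2.2 _ y rfl 4 2
  have c3 := h.2.2 _ y rfl 4 3
  have d2 : cn 2 u ≤ u.length := countP_le_length
  have d3 : cn 3 u ≤ u.length := countP_le_length
  obtain ⟨e1, e2, -⟩ := h
  cases b
  · show cn 1 _ ≤ _
    simp only [cn, countP_append] at *
    omega
  · show cn 4 _ ≤ _
    simp only [cn, countP_append] at *
    omega

theorem qk2 {K : List ℕ → Prop} (h : ∀ w, K w → QK w) (b) : Rig K (pp b) := by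
  intro x w1 w1' y w2 w2' z a c d
  obtain ⟨a1, a2, a3⟩ := h _ a
  obtain ⟨c1, c2, c3⟩ := h _ c
  obtain ⟨d1, d2, d3⟩ := h _ d
  cases b
  · show 0 < cn 1 _ → 0 < cn 1 _ → 0 < cn 1 _ ∨ 0 < cn 1 _
    have := a3 (x ++ w1) (y ++ w2' ++ z) (by simp) 2 1
    have := c3 (x ++ w1') (y ++ w2' ++ z) (by simp) 2 1
    simp only [cn, countP_append] at *
    omega
  · show 0 < cn 4 _ → 0 < cn 4 _ → 0 < cn 4 _ ∨ 0 < cn 4 _
    have := c3 (x ++ w1') (y ++ w2' ++ z) (by simp) 4 3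
    have := d3 (x ++ w1') (y ++ w2 ++ z) (by simp) 4 3
    simp only [cn, countP_append] at *
    omega

end Pool.Agent.H.MP_123b7c_lc
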