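import Mathlib

set_option autoImplicit false
set_option linter.unusedVariables false
set_option linter.unusedSectionVars false

/-! Time-indexed yields of parallel rewriting systems; growth graph. -/

namespace Pool.Agent.H.MP_123b7c_lc

open List Relation

section
variable {V : Type} (g : V → Language ℕ)

theorem mp_app {l1 l2 : List V} {w} : w ∈ ((l1 ++ l2).map g).prod ↔
    ∃ u ∈ (l1.map g).prod, ∃ v ∈ (l2.map g).prod, u ++ v = w := by
  rw [map_append, prod_append, Language.mem_mul]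

theorem mp_cons {y : V} {l2 : List V} {w} : w ∈ ((y :: l2).map g).prod ↔
    ∃ u ∈ g y, ∃ v ∈ (l2.map g).prod, u ++ v = w := by
  rw [map_cons, prod_cons, Language.mem_mul]

theorem mp_nil {w} : w ∈ (([] : List V).map g).prod ↔ w = [] := Language.mem_one w

theorem mp_mid {l1 l2 : List V} {y w} : w ∈ ((l1 ++ y :: l2).map g).prod ↔
    ∃ u z v, z ∈ g y ∧ u ∈ (l1.map g).prod ∧ v ∈ (l2.map g).prod ∧ u ++ z ++ v = w := by
  simp only [mp_app, mp_cons]
  exact ⟨fun ⟨u, a, _, ⟨z, b, v, c, rfl⟩, e⟩ => ⟨u, z, v, b, a, c, by rw [← e, append_assoc]⟩,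
    fun ⟨u, z, v, b, a, c, e⟩ => ⟨u, a, _, ⟨z, b, v, c, rfl⟩, by rw [← e, append_assoc]⟩⟩

variable {g}

theorem mp_ne {l : List V} : (∃ w, w ∈ (l.map g).prod) ↔ ∀ y ∈ l, ∃ w, w ∈ g y := by
  induction l with
  | nil => simp [Language.mem_one]
  | cons y l ih =>
    simp only [mp_cons, forall_mem_cons, ← ih]
    exact ⟨fun ⟨_, u, a, v, b, _⟩ => ⟨⟨u, a⟩, v, b⟩, fun ⟨⟨u, a⟩, v, b⟩ => ⟨_, u, a, v, b, rfl⟩⟩

theorem mp_one {l : List V} (h : ∀ y ∈ l, ∃ w, w ∈ g y) {y z} (hy : y ∈ l) (hz : z ∈ g y) :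
    ∃ u v, u ++ z ++ v ∈ (l.map g).prod := by
  obtain ⟨l1, l2, rfl⟩ := append_of_mem hy
  obtain ⟨u, a⟩ := mp_ne.2 fun y e => h y (mem_append_left _ e)
  obtain ⟨v, b⟩ := mp_ne.2 fun y e => h y (mem_append_right l1 (mem_cons_of_mem _ e))
  exact ⟨u, v, (mp_mid g).2 ⟨u, z, v, hz, a, b, rfl⟩⟩

theorem mp_mem {l : List V} {w t} (h : w ∈ (l.map g).prod) (ht : t ∈ w) : ∃ l1 y l2 u z v,
    l = l1 ++ y :: l2 ∧ t ∈ z ∧ z ∈ g y ∧ u ∈ (l1.map g).prod ∧ v ∈ (l2.map g).prod ∧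
      u ++ z ++ v = w := by
  induction l generalizing w with
  | nil => rw [(mp_nil g).1 h] at ht; cases ht
  | cons y l ih =>
    obtain ⟨u, a, v, b, rfl⟩ := (mp_cons g).1 h
    obtain c | c := mem_append.1 ht
    · exact ⟨[], y, l, [], u, v, rfl, c, a, (mp_nil g).2 rfl, b, rfl⟩
    · obtain ⟨l1, y', l2, u', z, v', rfl, d, e, f, f', rfl⟩ := ih b c
      exact ⟨y :: l1, y', l2, u ++ u', z, v', rfl, d, e, (mp_cons g).2 ⟨u, a, u', f, rfl⟩, f', by simp⟩

theorem mp_le {l : List V} {w} (q : ℕ → Bool) {B : ℕ} (h : w ∈ (l.map g).prod)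
    (hB : ∀ y ∈ l, ∀ u ∈ g y, u.countP q ≤ B) : w.countP q ≤ l.length * B := by
  induction l generalizing w with
  | nil => simp [(mp_nil g).1 h]
  | cons y l ih =>
    obtain ⟨u, a, v, b, rfl⟩ := (mp_cons g).1 h
    have := ih b fun y e => hB y (mem_cons_of_mem _ e)
    have := hB y mem_cons_self u a
    rw [countP_append, length_cons, Nat.succ_mul]
    omega

theorem mp_map {W : Type} {g' : W → Language ℕ} (f : V → W) (h : ℕ → ℕ) {l : List V} {w}
    (hw : w ∈ (l.map g).prod) (hg : ∀ y ∈ l, ∀ u ∈ g y, u.map h ∈ g' (f y)) :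
    w.map h ∈ ((l.map f).map g').prod := by
  induction l generalizing w with
  | nil => rw [(mp_nil g).1 hw]; exact (mp_nil g').2 rfl
  | cons y l ih =>
    obtain ⟨u, a, v, b, rfl⟩ := (mp_cons g).1 hw
    exact (mp_cons g').2 ⟨_, hg y mem_cons_self u a, _, ih b fun y e => hg y (mem_cons_of_mem _ e),
      by simp⟩
end

variable {V : Type} (P : Set (V × List V)) (tm : V → Option ℕ) (p : Bool → ℕ → Bool)

def Y : ℕ → V → Language ℕ
  | 0, X => {w | ∃ t, tm X = some t ∧ w = [t]}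
  | r + 1, X => {w | ∃ α, (X, α) ∈ P ∧ w ∈ (α.map (Y r)).prod}

theorem Y_len {L : ℕ} (hL : ∀ x ∈ P, x.2.length ≤ L) (r : ℕ) :
    ∀ X, ∀ w ∈ Y P tm r X, w.length ≤ L ^ r := by
  induction r with
  | zero => rintro X _ ⟨t, -, rfl⟩; simp
  | succ r ih =>
    rintro X w ⟨α, a, b⟩
    have := mp_le (fun _ => true) (B := L ^ r) b fun y _ u e => by simpa using ih y u e
    rw [countP_true] at this
    exact this.trans (by rw [pow_succ']; exact Nat.mul_le_mul_right _ (hL _ a))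

def tau (r : ℕ) : Set (V × Option Bool) :=
  {x | ∃ w ∈ Y P tm r x.1, ∀ b, x.2 = some b → 0 < w.countP (p b)}

def nx (T : Set (V × Option Bool)) : Set (V × Option Bool) :=
  {x | ∃ α, (x.1, α) ∈ P ∧ (∀ Z ∈ α, (Z, none) ∈ T) ∧ (x.2 = none ∨ ∃ Z ∈ α, (Z, x.2) ∈ T)}

theorem tau_none {r X} : (X, none) ∈ tau P tm p r ↔ ∃ w, w ∈ Y P tm r X := by simp [tau]

theorem tau_some {r X b} :
    (X, some b) ∈ tau P tm p r ↔ ∃ w ∈ Y P tm r X, 0 < w.countP (p b) :=
  ⟨fun ⟨w, a, c⟩ => ⟨w, a, c b rfl⟩, fun ⟨w, a, c⟩ => ⟨w, a, fun _ e => Option.some.inj e ▸ c⟩⟩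

theorem tau_succ (r : ℕ) : tau P tm p (r + 1) = nx P (tau P tm p r) := by
  ext ⟨X, _ | b⟩
  · simp only [tau_none, nx, Set.mem_setOf_eq, ← mp_ne, true_or, and_true]
    exact ⟨fun ⟨w, α, a, b⟩ => ⟨α, a, w, b⟩, fun ⟨α, a, w, b⟩ => ⟨w, α, a, b⟩⟩
  · simp only [tau_none, tau_some, nx, Set.mem_setOf_eq]
    constructor
    · rintro ⟨w, ⟨α, a, c⟩, d⟩
      obtain ⟨t, d, e⟩ := countP_pos_iff.1 d
      refine ⟨α, a, mp_ne.1 ⟨w, c⟩, .inr ?_⟩
      obtain ⟨l1, y, l2, u, z, v, rfl, f, f', -⟩ := mp_mem c d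
      exact ⟨y, by simp, z, f', countP_pos_iff.2 ⟨t, f, e⟩⟩
    · rintro ⟨α, a, c, ⟨⟨⟩⟩ | ⟨Z, d, z, e, f⟩⟩
      obtain ⟨u, v, k⟩ := mp_one c d e
      exact ⟨_, ⟨α, a, k⟩, by simp only [countP_append]; omega⟩

theorem tau_add {a b : ℕ} (h : tau P tm p a = tau P tm p b) (i : ℕ) :
    tau P tm p (a + i) = tau P tm p (b + i) := by
  induction i with
  | zero => exact h
  | succ i ih => rw [← add_assoc, ← add_assoc, tau_succ, tau_succ, ih]

theorem tau_per [Finite V] : ∃ K, 0 < K ∧ ∀ r, K ≤ r → tau P tm p (r + K) = tau P tm p r := by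
  obtain ⟨i, j, a, e⟩ := Finite.exists_ne_map_eq_of_infinite (tau P tm p)
  wlog b : i < j generalizing i j
  · exact this j i a.symm e.symm (by omega)
  have k : ∀ m, tau P tm p (i + m * (j - i)) = tau P tm p i := fun m => by
    induction m with
    | zero => simp
    | succ m ih => rw [Nat.succ_mul, ← add_assoc, tau_add P tm p ih, e]; congr 1; omega
  have : i + 1 ≤ (i + 1) * (j - i) := Nat.le_mul_of_pos_right _ (by omega)
  refine ⟨(i + 1) * (j - i), by omega, fun r c => ?_⟩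
  have := tau_add P tm p (k (i + 1)) (r - i)
  rwa [show i + (r - i) = r by omega, show i + (i + 1) * (j - i) + (r - i) = r + (i + 1) * (j - i) by
    omega] at this

variable (K : ℕ)

def At (x : V × Set (V × Option Bool)) (r : ℕ) : Prop := K ≤ r ∧ x.2 = tau P tm p r

def Eo (o : Option Bool) (x y : V × Set (V × Option Bool)) : Prop :=
  ∃ l1 l2, (x.1, l1 ++ y.1 :: l2) ∈ P ∧ x.2 = nx P y.2 ∧ (∃ r, At P tm p K y r) ∧
    (∀ Z ∈ l1 ++ y.1 :: l2, (Z, none) ∈ y.2) ∧ (o = none ∨ ∃ Z ∈ l1 ++ l2, (Z, o) ∈ y.2)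

abbrev Rc := ReflTransGen (Eo P tm p K none)

def Rg (b : Bool) (x : V × Set (V × Option Bool)) : Prop :=
  ∃ u v, Rc P tm p K x u ∧ Eo P tm p K (some b) u v ∧ Rc P tm p K v u

noncomputable def rk (x : V × Set (V × Option Bool)) : ℕ := {y | Rc P tm p K x y}.ncard

variable {P tm p K}

theorem Eo.no {o x y} (h : Eo P tm p K o x y) : Eo P tm p K none x y :=
  let ⟨l1, l2, a, b, c, d, _⟩ := h; ⟨l1, l2, a, b, c, d, .inl rfl⟩

theorem rk_le [Finite V] {x y} (h : Eo P tm p K none x y) : rk P tm p K y ≤ rk P tm p K x :=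
  Set.ncard_le_ncard fun _ e => .head h e

theorem rk_lt [Finite V] {x y} (h : Eo P tm p K none x y) (h' : ¬ Rc P tm p K y x) :
    rk P tm p K y < rk P tm p K x :=
  Set.ncard_lt_ncard ⟨fun _ e => .head h e, fun e => h' (e .refl)⟩

theorem Eo.cap {o x y} (h : Eo P tm p K none x y) (a : (y.1, o) ∈ y.2) : (x.1, o) ∈ x.2 := by
  obtain ⟨l1, l2, b, c, -, d, -⟩ := h
  exact c ▸ ⟨_, b, d, .inr ⟨_, by simp, a⟩⟩

theorem Rg.cap {b x} (h : Rg P tm p K b x) : (x.1, some b) ∈ x.2 := by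
  obtain ⟨u, v, h, ⟨l1, l2, b, c, -, d, ⟨⟨⟩⟩ | ⟨Z, e, f⟩⟩, -⟩ := h
  induction h using ReflTransGen.head_induction_on with
  | refl => exact c ▸ ⟨_, b, d, .inr ⟨Z, by simp at e ⊢; tauto, f⟩⟩
  | head a _ ih => exact a.cap ih

theorem Eo.lift {o x y r} (h : Eo P tm p K o x y) (a : At P tm p K y r) : At P tm p K x (r + 1) ∧
    ∃ u v, (∀ b, o = some b → 0 < (u ++ v).countP (p b)) ∧
      ∀ w ∈ Y P tm r y.1, u ++ w ++ v ∈ Y P tm (r + 1) x.1 := by
  obtain ⟨l1, l2, b, c, -, d, e⟩ := h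
  refine ⟨⟨by have := a.1; omega, by rw [c, a.2, tau_succ]⟩, ?_⟩
  rw [a.2] at d e
  have d' : ∀ Z ∈ l1 ++ l2, ∃ w, w ∈ Y P tm r Z := fun Z f =>
    (tau_none P tm p).1 (d Z (by simp at f ⊢; tauto))
  obtain ⟨w, k, k'⟩ : ∃ w ∈ ((l1 ++ l2).map (Y P tm r)).prod,
      ∀ b, o = some b → 0 < w.countP (p b) := by
    obtain rfl | ⟨Z, e, z, f, f'⟩ := e
    · simpa only [reduceCtorEq, false_imp_iff, implies_true, and_true] using mp_ne.2 d'
    · obtain ⟨u, v, k⟩ := mp_one d' e f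
      exact ⟨_, k, fun b e => by have := f' b e; simp only [countP_append]; omega⟩
  obtain ⟨u, q, v, q', rfl⟩ := (mp_app _).1 k
  exact ⟨u, v, k', fun w e => ⟨_, b, (mp_mid _).2 ⟨u, w, v, e, q, q', rfl⟩⟩⟩

theorem Rc.lift {x y r} (h : Rc P tm p K x y) (a : At P tm p K y r) : ∃ r', At P tm p K x r' ∧
    ∃ u v, ∀ w ∈ Y P tm r y.1, u ++ w ++ v ∈ Y P tm r' x.1 := by
  induction h using ReflTransGen.head_induction_on with
  | refl => exact ⟨r, a, [], [], by simp⟩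
  | head b _ ih =>
    obtain ⟨r', c, u, v, d⟩ := ih
    obtain ⟨e, u', v', -, f⟩ := b.lift c
    exact ⟨_, e, u' ++ u, v ++ v', fun w k => by simpa using f _ (d w k)⟩

theorem cyc {b x y r} (h : Eo P tm p K (some b) x y) (h' : Rc P tm p K y x) (a : At P tm p K x r)
    (m : ℕ) : ∃ r', At P tm p K x r' ∧ ∃ u v, m ≤ (u ++ v).countP (p b) ∧
      ∀ w ∈ Y P tm r x.1, u ++ w ++ v ∈ Y P tm r' x.1 := by
  induction m with
  | zero => exact ⟨r, a, [], [], by simp⟩
  | succ m ih =>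
    obtain ⟨r', c, u, v, d, e⟩ := ih
    obtain ⟨r2, c2, u2, v2, e2⟩ := h'.lift c
    obtain ⟨c3, u3, v3, d3, e3⟩ := h.lift c2
    refine ⟨_, c3, u3 ++ (u2 ++ u), v ++ v2 ++ v3, ?_, fun w k => by simpa using e3 _ (e2 _ (e w k))⟩
    have := d3 b rfl
    simp only [countP_append] at *
    omega

theorem x1 {S : V} (P1 : ∀ r x u y b, x ++ u ++ y ∈ Y P tm r S → (∀ b, 0 < u.countP (p b)) →
      (x ++ u ++ y).countP (p b) ≤ u.length) {c b x y r} (h0 : Rc P tm p K (S, c) x)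
    (h : Eo P tm p K (some b) x y) (h' : Rc P tm p K y x) (a : At P tm p K x r)
    (d : (x.1, some !b) ∈ x.2) : False := by
  obtain ⟨w, e, f⟩ := (tau_some P tm p).1 (a.2 ▸ d)
  obtain ⟨r1, a1, u1, v1, d1, e1⟩ := cyc h h' a 1
  obtain ⟨r2, a2, u2, v2, d2, e2⟩ := cyc h h' a1 ((u1 ++ w ++ v1).length + 1)
  obtain ⟨r3, -, u3, v3, e3⟩ := h0.lift a2
  have := P1 r3 (u3 ++ u2) (u1 ++ w ++ v1) (v2 ++ v3) b (by simpa using e3 _ (e2 _ (e1 _ e))) fun b' => by
    simp only [countP_append] at *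
    obtain rfl | rfl : b' = b ∨ b' = !b := by cases b <;> cases b' <;> simp
    all_goals omega
  simp only [countP_append] at *
  omega

theorem mk_eo {X l1 Z l2 r w} (o) (a : (X, l1 ++ Z :: l2) ∈ P) (b : K ≤ r)
    (c : w ∈ ((l1 ++ Z :: l2).map (Y P tm r)).prod)
    (d : o = none ∨ ∃ Z ∈ l1 ++ l2, (Z, o) ∈ tau P tm p r) :
    Eo P tm p K o (X, tau P tm p (r + 1)) (Z, tau P tm p r) :=
  ⟨l1, l2, a, tau_succ .., ⟨r, b, rfl⟩, fun Z e => (tau_none P tm p).2 (mp_ne.1 ⟨w, c⟩ Z e), d⟩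

theorem nocap {l : List V} {r w b} (c : w ∈ (l.map (Y P tm r)).prod)
    (h : ∀ Z ∈ l, (Z, some b) ∉ tau P tm p r) : w.countP (p b) = 0 := by
  simpa using mp_le (p b) (B := 0) c fun Z e u f => by
    by_contra k
    exact h Z e ((tau_some P tm p).2 ⟨u, f, by omega⟩)

variable [Finite V] {L : ℕ} (hL : ∀ x ∈ P, x.2.length ≤ L) (L0 : 0 < L)
include hL L0

theorem b1 (b : Bool) {r} (hr : K ≤ r) : ∀ X, ¬ Rg P tm p K b (X, tau P tm p r) → ∀ w ∈ Y P tm r X,
    w.countP (p b) ≤ L ^ (K + rk P tm p K (X, tau P tm p r)) := by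
  induction r, hr using Nat.le_induction with
  | base =>
    exact fun X _ w e => countP_le_length.trans ((Y_len P tm hL _ X w e).trans
      (Nat.pow_le_pow_right L0 (by omega)))
  | succ r hr ih =>
    rintro X n w ⟨α, a, c⟩
    have k : ∀ Z, Eo P tm p K none (X, tau P tm p (r + 1)) (Z, tau P tm p r) →
        ¬ Rg P tm p K b (Z, tau P tm p r) := fun Z e ⟨u, v, f, f'⟩ => n ⟨u, v, .head e f, f'⟩
    by_cases h : ∃ l1 Z l2, α = l1 ++ Z :: l2 ∧ ∀ Z ∈ l1 ++ l2, (Z, some b) ∉ tau P tm p r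
    · obtain ⟨l1, Z, l2, rfl, h⟩ := h
      have e := mk_eo (p := p) none a hr c (.inl rfl)
      obtain ⟨u, z, v, q, q1, q2, rfl⟩ := (mp_mid _).1 c
      simp only [countP_append, nocap q1 fun Z e => h Z (mem_append_left _ e),
        nocap q2 fun Z e => h Z (mem_append_right _ e), zero_add, add_zero]
      exact (ih Z (k Z e) z q).trans (Nat.pow_le_pow_right L0 (by have := rk_le e; omega))
    · have r0 : 0 < rk P tm p K (X, tau P tm p (r + 1)) := (Set.ncard_pos).2 ⟨_, .refl⟩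
      refine (mp_le (p b) (B := L ^ (K + rk P tm p K (X, tau P tm p (r + 1)) - 1)) c
        fun Z e u f => ?_).trans ?_
      · obtain ⟨l1, l2, rfl⟩ := append_of_mem e
        have e := mk_eo (p := p) (some b) a hr c (.inr (by
          by_contra q
          exact h ⟨l1, Z, l2, rfl, fun Z e f => q ⟨Z, e, f⟩⟩))
        have := rk_lt e.no fun q => n ⟨_, _, .refl, e, q⟩
        exact (ih Z (k Z e.no) u f).trans (Nat.pow_le_pow_right L0 (by omega))
      · refine (Nat.mul_le_mul_right _ (hL _ a)).trans (le_of_eq ?_)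
        rw [← pow_succ']
        congr 1
        omega

theorem b1' : ∃ B, L ^ K ≤ B ∧ ∀ b r (l : List V) w, K ≤ r → l.length ≤ L →
    (∀ X ∈ l, ¬ Rg P tm p K b (X, tau P tm p r)) → w ∈ (l.map (Y P tm r)).prod →
      w.countP (p b) ≤ B := by
  refine ⟨L * L ^ (K + (Set.univ : Set (V × Set (V × Option Bool))).ncard),
    (Nat.pow_le_pow_right L0 (by omega)).trans (Nat.le_mul_of_pos_left _ L0),
    fun b r l w a c d e => (mp_le (p b) e fun X f u k => (b1 hL L0 b a X (d X f) u k).trans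
      (Nat.pow_le_pow_right L0 (Nat.add_le_add_left (Set.ncard_le_ncard (Set.subset_univ _)) _))).trans
      (Nat.mul_le_mul_right _ c)⟩

def Both (P : Set (V × List V)) (tm : V → Option ℕ) (p : Bool → ℕ → Bool) (K : ℕ) (S : V) : Prop :=
  ∃ c X l1 Z l2 Z' b r, K ≤ r ∧ Rc P tm p K (S, c) (X, tau P tm p (r + 1)) ∧ (X, l1 ++ Z :: l2) ∈ P ∧
    (∀ W ∈ l1 ++ l2, (W, none) ∈ tau P tm p r) ∧ Z' ∈ l1 ++ l2 ∧ Rg P tm p K b (Z, tau P tm p r) ∧
      Rg P tm p K (!b) (Z', tau P tm p r)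

theorem both {S : V} (P1 : ∀ r x u y b, x ++ u ++ y ∈ Y P tm r S → (∀ b, 0 < u.countP (p b)) →
      (x ++ u ++ y).countP (p b) ≤ u.length)
    (P0 : ∀ n, ∃ r, ∃ w ∈ Y P tm r S, ∀ b, n ≤ w.countP (p b)) : Both P tm p K S := by
  by_contra nb
  obtain ⟨B, hB, hB'⟩ := b1' (tm := tm) (p := p) (K := K) hL L0
  have key : ∀ c r, K ≤ r → ∀ X, Rc P tm p K (S, c) (X, tau P tm p r) → ∀ w ∈ Y P tm r X,
      ∃ b, w.countP (p b) ≤ B * (rk P tm p K (X, tau P tm p r) + 1) := by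
    intro c r hr
    induction r, hr using Nat.le_induction with
    | base =>
      exact fun X _ w e => ⟨true, countP_le_length.trans ((Y_len P tm hL _ X w e).trans
        (hB.trans (Nat.le_mul_of_pos_right _ (by omega))))⟩
    | succ r hr ih =>
      rintro X n w ⟨α, a, d⟩
      by_cases h : ∃ b, ∀ Z ∈ α, ¬ Rg P tm p K b (Z, tau P tm p r)
      · obtain ⟨b, h⟩ := h
        exact ⟨b, (hB' b r α w hr (hL _ a) h d).trans (Nat.le_mul_of_pos_right _ (by omega))⟩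
      simp only [not_exists, not_forall, not_not] at h
      obtain ⟨Z, e, f⟩ := h true
      obtain ⟨l1, l2, rfl⟩ := append_of_mem e
      have k : ∀ b, Rg P tm p K b (Z, tau P tm p r) → ∀ W ∈ l1 ++ l2,
          ¬ Rg P tm p K (!b) (W, tau P tm p r) := fun b f W e f' =>
        nb ⟨c, X, l1, Z, l2, W, b, r, hr, n, a, fun W e =>
          (tau_none P tm p).2 (mp_ne.1 ⟨w, d⟩ W (by simp at e ⊢; tauto)), e, f, f'⟩
      have f' : ∀ b, Rg P tm p K b (Z, tau P tm p r) := by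
        rintro (_ | _)
        · obtain ⟨W, e, f'⟩ := h false
          by_cases q : W = Z
          · exact q ▸ f'
          · exact (k true f W (by simp at e ⊢; tauto) f').elim
        · exact f
      have e0 := mk_eo (p := p) none a hr d (.inl rfl)
      have d' := d
      obtain ⟨u, z, v, q, q1, q2, rfl⟩ := (mp_mid _).1 d'
      obtain ⟨b, hb⟩ := ih Z (n.tail e0) z q
      have q3 := (mp_app _).2 ⟨u, q1, v, q2, rfl⟩
      refine ⟨b, ?_⟩
      by_cases h : ∀ W ∈ l1 ++ l2, (W, some b) ∉ tau P tm p r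
      · have := nocap q3 h
        have := Nat.mul_le_mul_left B (Nat.succ_le_succ (rk_le e0))
        simp only [countP_append, Nat.succ_eq_add_one] at *
        omega
      · have e1 := mk_eo (p := p) (some b) a hr d (.inr (by simpa only [not_forall, not_not, exists_prop] using h))
        have := Nat.mul_le_mul_left B (Nat.succ_le_succ (rk_lt e0 fun q =>
          x1 P1 n e1 q (r := r + 1) ⟨by omega, rfl⟩ (e0.cap (f' _).cap)))
        have := hB' b r (l1 ++ l2) _ hr (by have := hL _ a; simp at this ⊢; omega)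
          (fun W e => by simpa using k (!b) (f' _) W e) q3
        simp only [countP_append, Nat.succ_eq_add_one, Nat.mul_succ] at *
        omega
  obtain ⟨r, w, e, f⟩ := P0 (B * ((Set.univ : Set (V × Set (V × Option Bool))).ncard + 1) + 1)
  by_cases h : K ≤ r
  · obtain ⟨b, k⟩ := key _ r h S .refl w e
    have := f b
    have := Nat.mul_le_mul_left B (Nat.succ_le_succ (Set.ncard_le_ncard
      (Set.subset_univ {y | Rc P tm p K (S, tau P tm p r) y})))
    simp only [rk, Nat.succ_eq_add_one] at *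
    omega
  · have := (f true).trans (countP_le_length.trans ((Y_len P tm hL _ S w e).trans
      ((Nat.pow_le_pow_right L0 (not_le.1 h).le).trans hB)))
    simp only [Nat.mul_succ] at this
    omega

end Pool.Agent.H.MP_123b7c_lc
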