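import Pool.Agent.H.MP_123b7c_lc.C

set_option autoImplicit false
set_option linter.unusedVariables false
set_option linter.unusedSectionVars false

/-! Marked interpretation that synchronises two growing lines. -/

namespace Pool.Agent.H.MP_123b7c_lc

open List Relation Classical

def pw (i : ℕ) (v : List ℕ) : List ℕ := (replicate i v).flatten

def Pump (L : Language ℕ) : Prop := ∃ N, ∀ z ∈ L, N < z.length → ∃ u v x y t,
  z = u ++ (v ++ x ++ y) ++ t ∧ (v ++ x ++ y).length ≤ N ∧ v ++ y ≠ [] ∧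
    ∀ i, u ++ (pw i v ++ (v ++ x ++ y) ++ pw i y) ++ t ∈ L

def Rig (K : List ℕ → Prop) (q : ℕ → Bool) : Prop := ∀ x w1 w1' y w2 w2' z,
  K (x ++ w1 ++ y ++ w2' ++ z) → K (x ++ w1' ++ y ++ w2' ++ z) → K (x ++ w1' ++ y ++ w2 ++ z) →
    0 < w1'.countP q → 0 < w2'.countP q → 0 < w1.countP q ∨ 0 < w2.countP q

noncomputable def cp (q : ℕ → Bool) (Ys : List (Language ℕ)) : ℕ :=
  Ys.countP fun A => decide (∃ u ∈ A, 0 < u.countP q)

theorem cnt0 (q : ℕ → Bool) (Ys : List (Language ℕ)) : ∀ (K : List ℕ → Prop) w,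
    (∀ y w2 w2' z, K (y ++ w2 ++ z) → K (y ++ w2' ++ z) → 0 < w2'.countP q → 0 < w2.countP q) →
      (∀ w ∈ Ys.prod, K w) → w ∈ Ys.prod → cp q Ys ≤ w.countP q := by
  induction Ys with
  | nil => simp [cp]
  | cons A Ys ih =>
    simp only [prod_cons, Language.mem_mul]
    rintro K _ h h' ⟨u, a, v, b, rfl⟩
    have := ih (fun w => K (u ++ w)) v (fun y w2 w2' z c d => h (u ++ y) w2 w2' z (by simpa using c)
      (by simpa using d)) (fun w e => h' _ ⟨u, a, w, e, rfl⟩) b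
    rw [cp, countP_cons, countP_append]
    split_ifs with c
    · obtain ⟨u', c, d⟩ := of_decide_eq_true c
      have := h [] u u' v (h' _ ⟨u, a, v, b, rfl⟩) (h' _ ⟨u', c, v, b, rfl⟩) d
      unfold cp at *
      omega
    · unfold cp at *
      omega

theorem cnt (q : ℕ → Bool) (Ys : List (Language ℕ)) : ∀ (K : List ℕ → Prop) w, Rig K q →
      (∀ w ∈ Ys.prod, K w) → w ∈ Ys.prod → cp q Ys ≤ w.countP q + 1 := by
  induction Ys with
  | nil => simp [cp]
  | cons A Ys ih =>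
    simp only [prod_cons, Language.mem_mul]
    rintro K _ h h' ⟨u, a, v, b, rfl⟩
    have := ih (fun w => K (u ++ w)) v (fun x w1 w1' y w2 w2' z c d e => h (u ++ x) w1 w1' y w2 w2' z
      (by simpa using c) (by simpa using d) (by simpa using e)) (fun w e => h' _ ⟨u, a, w, e, rfl⟩) b
    rw [cp, countP_cons, countP_append]
    split_ifs with c
    · obtain ⟨u', c, d⟩ := of_decide_eq_true c
      by_cases e : 0 < u.countP q
      · unfold cp at *
        omega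
      · have := cnt0 q Ys (fun w => K (u ++ w) ∧ K (u' ++ w)) v (fun y w2 w2' z f f' k =>
          (h [] u u' y w2 w2' z (by simpa using f'.1) (by simpa using f'.2) (by simpa using f.2)
            d k).resolve_left e) (fun w e => ⟨h' _ ⟨u, a, w, e, rfl⟩, h' _ ⟨u', c, w, e, rfl⟩⟩) b
        unfold cp at *
        omega
    · unfold cp at *
      omega

theorem mp3 {A B C : List (Language ℕ)} {w} : w ∈ (A ++ B ++ C).prod ↔
    ∃ u z v, z ∈ B.prod ∧ u ∈ A.prod ∧ v ∈ C.prod ∧ u ++ z ++ v = w := by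
  simp only [prod_append, Language.mem_mul]
  exact ⟨fun ⟨_, ⟨u, a, z, b, rfl⟩, v, c, e⟩ => ⟨u, z, v, b, a, c, e⟩,
    fun ⟨u, z, v, b, a, c, e⟩ => ⟨_, ⟨u, a, z, b, rfl⟩, v, c, e⟩⟩

variable {V : Type}

abbrev Mk (V : Type) := Option (Option Bool × Set (V × Option Bool) × ℕ)

def Val (P : Set (V × List V)) (α : List (V × Mk V)) : Mk V → Mk V → Prop
  | _, none => True
  | none, some _ => False
  | some x, some y => (x.1 = none ∨ x.1 = y.1) ∧ x.2.1 = nx P y.2.1 ∧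
      (y.2.2 < x.2.2 ∨ ∃ b Z, y.1 = some b ∧ (Z, none) ∈ α ∧ (Z, some b) ∈ y.2.1)

def Bd (R : ℕ) (m : Mk V) : Prop := ∀ x, m = some x → x.2.2 ≤ R

def PM (P : Set (V × List V)) (R : ℕ) : Set ((V × Mk V) × List (V × Mk V)) :=
  {x | (x.1.1, x.2.map Prod.fst) ∈ P ∧ Bd R x.1.2 ∧ ∀ y ∈ x.2, Bd R y.2 ∧ Val P x.2 x.1.2 y.2}

def tM (tm : V → Option ℕ) (enc : Mk V → ℕ) (x : V × Mk V) : Option ℕ :=
  (tm x.1).map fun t => Nat.pair t (enc x.2)

theorem bd0 {R} : Bd R (none : Mk V) := nofun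
theorem bd1 {R n : ℕ} {s c} (h : n ≤ R) : Bd R (some (s, c, n) : Mk V) := by rintro _ ⟨⟩; exact h
theorem val0 {P : Set (V × List V)} {α m} : Val P α m none := by cases m <;> trivial

variable {P : Set (V × List V)} {tm : V → Option ℕ} {p : Bool → ℕ → Bool} {enc : Mk V → ℕ} {R K : ℕ}

theorem proj (r : ℕ) : ∀ x, ∀ z ∈ Y (PM P R) (tM tm enc) r x,
    z.map (fun t => t.unpair.1) ∈ Y P tm r x.1 := by
  induction r with
  | zero =>
    rintro x _ ⟨_, a, rfl⟩
    obtain ⟨t, a', rfl⟩ := Option.map_eq_some_iff.1 a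
    exact ⟨t, a', by simp⟩
  | succ r ih => exact fun x z ⟨α, a, b⟩ => ⟨_, a.1, mp_map _ _ b fun y _ => ih y⟩

theorem plain (r : ℕ) : ∀ X, ∀ w ∈ Y P tm r X,
    w.map (fun t => Nat.pair t (enc none)) ∈ Y (PM P R) (tM tm enc) r (X, none) := by
  induction r with
  | zero =>
    rintro x _ ⟨t, a, rfl⟩
    exact ⟨_, by simp [tM, a], rfl⟩
  | succ r ih =>
    refine fun X w ⟨α, a, b⟩ => ⟨α.map (·, none), ⟨by simpa [Function.comp_def], bd0, ?_⟩,
      mp_map _ _ b fun y _ => ih y⟩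
    simp only [mem_map]
    rintro _ ⟨y, -, rfl⟩
    exact ⟨bd0, val0⟩

def Mr (P : Set (V × List V)) (tm : V → Option ℕ) (p : Bool → ℕ → Bool) (enc : Mk V → ℕ) (b : Bool)
    (z : List ℕ) : Prop := ∃ t ∈ z, ∃ n, t.unpair.2 = enc (some (some b, tau P tm p 0, n))

theorem Mr.mono {b z z'} (h : Mr P tm p enc b z) (h' : z ⊆ z') : Mr P tm p enc b z' :=
  let ⟨t, a, c⟩ := h; ⟨t, h' a, c⟩

theorem frames (he : enc.Injective) (b : Bool) (r : ℕ) : ∀ x, ∀ z ∈ Y (PM P R) (tM tm enc) r x,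
    Mr P tm p enc b z → ∃ s n, x.2 = some (s, tau P tm p r, n) ∧ (s = none ∨ s = some b) ∧
      ∃ Ys : List (Language ℕ), z.map (fun t => t.unpair.1) ∈ Ys.prod ∧
        (∀ w ∈ Ys.prod, w ∈ Y P tm r x.1) ∧ r ≤ cp (p b) Ys * (R + 1) + n := by
  induction r with
  | zero =>
    rintro x z h ⟨t, a, n, c⟩
    refine ⟨_, n, ?_, .inr rfl, [Y P tm 0 x.1], by simpa using proj 0 x z h, by simp, by simp⟩
    obtain ⟨_, h, rfl⟩ := h
    obtain ⟨t, -, rfl⟩ := Option.map_eq_some_iff.1 h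
    obtain rfl := mem_singleton.1 a
    exact he (by simpa using c)
  | succ r ih =>
    rintro ⟨X, m⟩ z ⟨α, a, h⟩ ⟨t, c, d⟩
    obtain ⟨l1, ⟨Z, m'⟩, l2, u, z, v, rfl, c', e, e1, e2, rfl⟩ := mp_mem h c
    obtain ⟨s, n, rfl, hs, Ys, f1, f2, f3⟩ := ih _ z e ⟨t, c', d⟩
    obtain ⟨k, k'⟩ := a.2.2 _ (mem_append_right _ mem_cons_self)
    have k := k _ rfl
    obtain _ | ⟨s', c', n'⟩ := m
    · exact k'.elim
    obtain ⟨k1, rfl, k3⟩ := k'
    refine ⟨s', n', by rw [tau_succ], k1.elim .inl fun e => hs.imp e.trans e.trans,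
      (l1.map Prod.fst).map (Y P tm r) ++ Ys ++ (l2.map Prod.fst).map (Y P tm r),
      mp3.2 ⟨_, _, _, f1, mp_map _ _ e1 fun y _ => proj r y, mp_map _ _ e2 fun y _ => proj r y,
        by simp⟩, fun w q => ?_, ?_⟩
    · obtain ⟨u, z, v, q0, q1, q2, rfl⟩ := mp3.1 q
      exact ⟨_, a.1, by
        rw [map_append, map_cons]; exact (mp_mid _).2 ⟨u, z, v, f2 z q0, q1, q2, rfl⟩⟩
    · simp only [cp, countP_append, Nat.add_mul] at *
      obtain k3 | ⟨b', W, rfl, k3, k4⟩ := k3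
      · omega
      obtain rfl : b' = b := by simpa using hs
      have : ∀ l : List (V × Mk V), (W, none) ∈ l → 1 * (R + 1) ≤ ((l.map Prod.fst).map (Y P tm r)).countP
          (fun A => decide (∃ u ∈ A, 0 < u.countP (p b'))) * (R + 1) := fun l e =>
        Nat.mul_le_mul_right _ (countP_pos_iff.2 ⟨_, mem_map_of_mem (mem_map_of_mem e),
          decide_eq_true ((tau_some P tm p).1 k4)⟩)
      obtain k3 | k3 : (W, none) ∈ l1 ∨ (W, none) ∈ l2 := by simpa using k3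
      all_goals
        have := this _ k3
        omega

theorem up {X l1 Z l2 r m m' z} (a : (X, l1 ++ Z :: l2) ∈ P)
    (b : ∀ W ∈ l1 ++ l2, (W, none) ∈ tau P tm p r) (hm : Bd R m) (hm' : Bd R m')
    (hv : ∀ α : List (V × Mk V), (∀ W ∈ l1 ++ l2, (W, none) ∈ α) → Val P α m m')
    (hz : z ∈ Y (PM P R) (tM tm enc) r (Z, m')) :
    ∃ z' ∈ Y (PM P R) (tM tm enc) (r + 1) (X, m), z ⊆ z' := by
  have k : ∀ l : List V, (∀ W ∈ l, W ∈ l1 ++ l2) →
      ∃ u, u ∈ ((l.map (·, none)).map (Y (PM P R) (tM tm enc) r)).prod := fun l h => mp_ne.2 (by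
    simp only [mem_map]
    rintro _ ⟨W, e, rfl⟩
    obtain ⟨w, c⟩ := (tau_none P tm p).1 (b W (h W e))
    exact ⟨_, plain r W w c⟩)
  obtain ⟨u, c⟩ := k l1 fun _ => mem_append_left _
  obtain ⟨v, d⟩ := k l2 fun _ => mem_append_right _
  refine ⟨u ++ z ++ v, ⟨l1.map (·, none) ++ (Z, m') :: l2.map (·, none),
    ⟨by simpa [Function.comp_def], hm, ?_⟩, (mp_mid _).2 ⟨u, z, v, hz, c, d, rfl⟩⟩, by simp⟩
  simp only [mem_append, mem_cons, mem_map]
  rintro _ (⟨_, _, rfl⟩ | rfl | ⟨_, _, rfl⟩)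
  exacts [⟨bd0, val0⟩, ⟨hm', hv _ fun W e => by simp at e ⊢; tauto⟩, ⟨bd0, val0⟩]

def PG (P : Set (V × List V)) (tm : V → Option ℕ) (p : Bool → ℕ → Bool) (enc : Mk V → ℕ) (R : ℕ)
    (b : Bool) (X : V) (r n : ℕ) : Prop :=
  ∃ z ∈ Y (PM P R) (tM tm enc) r (X, some (some b, tau P tm p r, n)), Mr P tm p enc b z

theorem g0 (b : Bool) (r : ℕ) : ∀ X n, (X, some b) ∈ tau P tm p r → r ≤ n → n ≤ R →
    PG P tm p enc R b X r n := by
  induction r with
  | zero =>
    rintro X n ⟨_, ⟨t, a, rfl⟩, -⟩ - -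
    exact ⟨[Nat.pair t (enc (some (some b, tau P tm p 0, n)))], ⟨_, by simp [tM, a], rfl⟩, _,
      mem_singleton_self _, n, by simp⟩
  | succ r ih =>
    intro X n h c d
    rw [tau_succ] at h
    obtain ⟨α, a, e, ⟨⟨⟩⟩ | ⟨Z, f, f'⟩⟩ := h
    obtain ⟨l1, l2, rfl⟩ := append_of_mem f
    obtain ⟨z, k, k'⟩ := ih Z (n - 1) f' (by omega) (by omega)
    obtain ⟨z', q, q'⟩ := up (p := p) (m := some (some b, tau P tm p (r + 1), n)) a
      (fun W h => e W (by simp at h ⊢; tauto)) (bd1 d) (bd1 (n := n - 1) (by omega))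
      (fun α _ => ⟨.inr rfl, tau_succ .., .inl (by simp only; omega)⟩) k
    exact ⟨z', q, k'.mono q'⟩

inductive Rk {α : Type} (E : α → α → Prop) : ℕ → α → α → Prop
  | refl (x) : Rk E 0 x x
  | head {k x y z} : E x y → Rk E k y z → Rk E (k + 1) x z

theorem Rk.rtg {α : Type} {E : α → α → Prop} {k x y} (h : Rk E k x y) : ReflTransGen E x y := by
  induction h with
  | refl => rfl
  | head a _ ih => exact .head a ih

theorem rk_of {α : Type} {E : α → α → Prop} {x y} (h : ReflTransGen E x y) : ∃ k, Rk E k x y := by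
  induction h using ReflTransGen.head_induction_on with
  | refl => exact ⟨0, .refl _⟩
  | head a _ ih => exact let ⟨k, b⟩ := ih; ⟨_, .head a b⟩

section
variable (K0 : 0 < K) (hK : ∀ r, K ≤ r → tau P tm p (r + K) = tau P tm p r)
include K0 hK

theorem Eo.down {o x y r} (h : Eo P tm p K o x y) (a : At P tm p K x (r + 1)) (b : K ≤ r) :
    At P tm p K y r := by
  obtain ⟨l1, l2, -, c, ⟨r', d⟩, -⟩ := h
  have := tau_add P tm p (a := r' + 1) (b := r + 1) (by rw [← a.2, c, d.2, tau_succ]) (K - 1)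
  rw [show r' + 1 + (K - 1) = r' + K by omega, show r + 1 + (K - 1) = r + K by omega, hK _ d.1,
    hK _ b] at this
  exact ⟨b, d.2.trans this⟩

theorem Eo.pg {o x y r b n n'} (h : Eo P tm p K o x y) (a : At P tm p K y r) (hn : n ≤ R) (hn' : n' ≤ R)
    (c : n' < n ∨ o = some b) (d : PG P tm p enc R b y.1 r n') : PG P tm p enc R b x.1 (r + 1) n := by
  obtain ⟨l1, l2, e, -, -, f, f'⟩ := h
  rw [a.2] at f f'
  obtain ⟨z, k, k'⟩ := d
  obtain ⟨z', q, q'⟩ := up (p := p) (m := some (some b, tau P tm p (r + 1), n)) e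
    (fun W h => f W (by simp at h ⊢; tauto)) (bd1 hn) (bd1 hn')
    (fun α h => ⟨.inr rfl, tau_succ .., c.imp_right (by
      rintro rfl
      obtain ⟨⟨⟩⟩ | ⟨Z, f, f'⟩ := f'
      exact ⟨b, Z, rfl, h Z f, f'⟩)⟩) k
  exact ⟨z', q, k'.mono q'⟩

theorem Rg.pg {b x} (h : Rg P tm p K b x) : ∃ n, ∀ R, n ≤ R → ∃ n' ≤ n, ∀ r, At P tm p K x r →
    PG P tm p enc R b x.1 r n' := by
  obtain ⟨u, v, h1, h2, h3⟩ := h
  obtain ⟨k, h1'⟩ := rk_of h1
  obtain ⟨l, h3'⟩ := rk_of h3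
  refine ⟨k + l + K + 1, fun R hR => ⟨k + K + 1, by omega, fun r a => ?_⟩⟩
  have hk : k + K + 1 ≤ R := by omega
  have hl : l + K + 1 ≤ R := by omega
  clear hR h1
  obtain ⟨hr, a⟩ := a
  induction r, hr using Nat.le_induction generalizing x k with
  | base => exact g0 b K _ _ (a ▸ Rg.cap ⟨u, v, h1'.rtg, h2, h3⟩) (by omega) hk
  | succ r hr ih =>
    cases h1' with
    | refl =>
      have c := h2.down K0 hK ⟨by omega, a⟩ hr
      exact h2.pg K0 hK c hk hl (.inr rfl) (ih _ h3' hl c.2)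
    | head e f =>
      have c := e.down K0 hK ⟨by omega, a⟩ hr
      exact e.pg K0 hK c hk (by omega) (.inl (by omega)) (ih _ f (by omega) c.2)

theorem Rk.init {k x y} (h : Rk (Eo P tm p K none) k x y) {r n z} (a : At P tm p K y r) (hn : n + k ≤ R)
    (hz : z ∈ Y (PM P R) (tM tm enc) r (y.1, some (none, y.2, n))) : At P tm p K x (r + k) ∧
      ∃ z' ∈ Y (PM P R) (tM tm enc) (r + k) (x.1, some (none, x.2, n + k)), z ⊆ z' := by
  induction h with
  | refl => exact ⟨a, z, hz, Subset.refl _⟩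
  | @head k x y' _ e _ ih =>
    obtain ⟨b, z', c, d⟩ := ih a (by omega) hz
    refine ⟨(e.lift b).1, ?_⟩
    obtain ⟨l1, l2, e, e', -, f, -⟩ := e
    obtain ⟨z'', q, q'⟩ := up (p := p) (m := some (none, x.2, n + (k + 1))) e
      (fun W h => b.2 ▸ f W (by simp at h ⊢; tauto)) (bd1 hn) (bd1 (by omega))
      (fun α h => ⟨.inl rfl, e', .inl (by simp only; omega)⟩) c
    exact ⟨z'', q, List.Subset.trans d q'⟩

theorem Both.big {S} (h : Both P tm p K S) : ∃ R m, Bd R m ∧ ∀ N, ∃ r, N ≤ r ∧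
    ∃ z ∈ Y (PM P R) (tM tm enc) r (S, m), ∀ b, Mr P tm p enc b z := by
  obtain ⟨c, X, l1, Z, l2, Z', b, r, hr, h1, h2, h3, h4, h5, h6⟩ := h
  obtain ⟨k, h1⟩ := rk_of h1
  obtain ⟨n1, h5⟩ := h5.pg (enc := enc) K0 hK
  obtain ⟨n2, h6⟩ := h6.pg (enc := enc) K0 hK
  refine ⟨n1 + n2 + 1 + k, some (none, c, n1 + n2 + 1 + k), bd1 le_rfl, fun N => ?_⟩
  obtain ⟨n1', a1, h5⟩ := h5 (n1 + n2 + 1 + k) (by omega)
  obtain ⟨n2', a2, h6⟩ := h6 (n1 + n2 + 1 + k) (by omega)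
  have e : tau P tm p r = tau P tm p (r + N * K) := by
    induction N with
    | zero => simp
    | succ N ih => rw [Nat.succ_mul, ← add_assoc, hK _ (by omega), ih]
  have hN : N ≤ N * K := Nat.le_mul_of_pos_right _ K0
  have hr' : K ≤ r + N * K := by omega
  have hN : N ≤ r + N * K := by omega
  rw [tau_succ, e, ← tau_succ] at h1
  rw [e] at h3 h5 h6
  generalize r + N * K = r at *
  obtain ⟨z1, q1, q1'⟩ := h5 r ⟨hr', rfl⟩
  obtain ⟨z2, q2, q2'⟩ := h6 r ⟨hr', rfl⟩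
  obtain ⟨g, g1, g2, g3⟩ : ∃ g : V → V × Mk V, (∀ W, (g W).1 = W) ∧
      g Z' = (Z', some (some !b, tau P tm p r, n2')) ∧ ∀ W, g W = g Z' ∨ g W = (W, none) :=
    ⟨fun W => (W, if W = Z' then some (some !b, tau P tm p r, n2') else none), fun _ => rfl, by simp,
      fun W => by by_cases e : W = Z' <;> simp [e]⟩
  obtain ⟨u, v, q⟩ := mp_one (g := Y (PM P _) (tM tm enc) r) (l := (l1 ++ l2).map g) (by
    simp only [mem_map]
    rintro _ ⟨W, e, rfl⟩
    obtain f | f := g3 W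
    · exact ⟨z2, by rwa [f, g2]⟩
    · obtain ⟨w, c⟩ := (tau_none P tm p).1 (h3 W e)
      exact ⟨_, f ▸ plain r W w c⟩) (mem_map_of_mem h4) (g2 ▸ q2)
  rw [map_append] at q
  obtain ⟨u', q3, v', q4, q5⟩ := (mp_app _).1 q
  have hv : ∀ α, ∀ y ∈ l1.map g ++ (Z, some (some b, tau P tm p r, n1')) :: l2.map g,
      Bd (n1 + n2 + 1 + k) y.2 ∧ Val P α (some (none, tau P tm p (r + 1), n1 + n2 + 1)) y.2 := by
    intro α y e
    obtain rfl | ⟨W, rfl⟩ : y = (Z, some (some b, tau P tm p r, n1')) ∨ ∃ W, y = g W := by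
      simp only [mem_append, mem_cons, mem_map] at e
      obtain ⟨W, -, rfl⟩ | e | ⟨W, -, rfl⟩ := e
      exacts [.inr ⟨W, rfl⟩, .inl e, .inr ⟨W, rfl⟩]
    · exact ⟨bd1 (by omega), .inl rfl, tau_succ .., .inl (by simp only; omega)⟩
    · obtain f | f := g3 W
      · rw [f, g2]
        exact ⟨bd1 (by omega), .inl rfl, tau_succ .., .inl (by simp only; omega)⟩
      · rw [f]
        exact ⟨bd0, val0⟩
  obtain ⟨-, z, k1, k2⟩ := h1.init (enc := enc) K0 hK (r := r + 1) (n := n1 + n2 + 1) (z := u' ++ z1 ++ v')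
    ⟨by omega, rfl⟩ le_rfl ⟨l1.map g ++ (Z, some (some b, tau P tm p r, n1')) :: l2.map g,
      ⟨by simpa [Function.comp_def, g1], bd1 (by omega), hv _⟩,
      (mp_mid _).2 ⟨u', z1, v', q1, q3, q4, rfl⟩⟩
  refine ⟨_, by omega, z, k1, fun b' => ?_⟩
  obtain rfl | rfl : b' = b ∨ b' = !b := by cases b <;> cases b' <;> simp
  · exact q1'.mono (List.Subset.trans (by simp) k2)
  · refine q2'.mono (List.Subset.trans (fun t e => ?_) k2)
    have : t ∈ u' ++ v' := by simp [q5, e]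
    simp at this ⊢
    tauto
end

theorem nopump [Finite V] {L : ℕ} (hL : ∀ x ∈ P, x.2.length ≤ L) (L0 : 0 < L) (he : enc.Injective)
    {S : V} (P1 : ∀ r x u y b, x ++ u ++ y ∈ Y P tm r S → (∀ b, 0 < u.countP (p b)) →
      (x ++ u ++ y).countP (p b) ≤ u.length)
    (P0 : ∀ n, ∃ r, ∃ w ∈ Y P tm r S, ∀ b, n ≤ w.countP (p b))
    (P2 : ∀ b, Rig (fun w => ∃ r, w ∈ Y P tm r S) (p b)) :
    ∃ R m, Bd R m ∧ ¬ Pump {w | ∃ r, w ∈ Y (PM P R) (tM tm enc) r (S, m)} := by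
  obtain ⟨K, K0, hK⟩ := tau_per P tm p
  obtain ⟨R, m, hm, h⟩ := (both hL L0 P1 P0).big (enc := enc) K0 hK
  refine ⟨R, m, hm, fun ⟨N, hN⟩ => ?_⟩
  have key : ∀ b r, ∀ z ∈ Y (PM P R) (tM tm enc) r (S, m), Mr P tm p enc b z →
      r ≤ ((z.map fun t => t.unpair.1).countP (p b) + 1) * (R + 1) + R := fun b r z a c => by
    obtain ⟨s, n, d, -, Ys, e1, e2, e3⟩ := frames he b r _ z a c
    have := hm _ d
    have := Nat.mul_le_mul_right (R + 1) (cnt (p b) Ys _ _ (P2 b) (fun w e => ⟨r, e2 w e⟩) e1)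
    simp only at *
    omega
  obtain ⟨r, a, z, c, d⟩ := h ((N + 1) * (R + 1) + R + 1)
  have e : N < (z.map fun t => t.unpair.1).countP (p true) := by
    by_contra e
    have := key true r z c (d _)
    have := Nat.mul_le_mul_right (R + 1) (Nat.succ_le_succ (not_lt.1 e))
    simp only [Nat.succ_eq_add_one] at *
    omega
  obtain ⟨u, v, x, y, t, rfl, f1, f2, f3⟩ := hN z ⟨r, c⟩ (e.trans_le (by simpa using
    (countP_le_length (p := p true) (l := z.map fun t => t.unpair.1))))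
  have := P1 r (u.map _) ((v ++ x ++ y).map _) (t.map _) true (by
    simpa only [map_append] using proj r _ _ c) fun b => ?_
  · simp only [map_append, length_append, length_map] at *
    omega
  by_contra k
  obtain ⟨i, hi⟩ : ∃ i, i = L ^ ((((u ++ (v ++ x ++ y) ++ t).map fun t => t.unpair.1).countP (p b) + 1) *
    (R + 1) + R) + 1 := ⟨_, rfl⟩
  obtain ⟨r', q⟩ := f3 i
  have q1 := key b r' _ q ((d b).mono fun t e => by simp at e ⊢; tauto)
  have q2 := Y_len (PM P R) (tM tm enc) (L := L) (fun x e => by simpa using hL _ e.1) r' _ _ q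
  have q3 : ∀ v, ((pw i v).map fun t => t.unpair.1).countP (p b) =
      i * (v.map fun t => t.unpair.1).countP (p b) := fun v => by
    simp [pw, countP_flatten]
  have q4 : ∀ v, (pw i v).length = i * v.length := fun v => by simp [pw]
  have q5 : 1 ≤ v.length + y.length := by rw [← length_append]; exact length_pos_iff.2 f2
  have q6 := Nat.mul_le_mul_left i q5
  have k1 : (v.map fun t => t.unpair.1).countP (p b) = 0 := by
    simp only [map_append, countP_append] at k; omega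
  have k2 : (y.map fun t => t.unpair.1).countP (p b) = 0 := by
    simp only [map_append, countP_append] at k; omega
  simp only [map_append, countP_append, q3, k1, k2, mul_zero, zero_add, add_zero] at q1 hi
  have := Nat.pow_le_pow_right L0 q1
  simp only [length_append, q4, Nat.mul_add] at q2 q6
  omega

end Pool.Agent.H.MP_123b7c_lc
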