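import Pool.Agent.H.MP_123b7c_lc.B

set_option autoImplicit false
set_option linter.unusedVariables false
set_option linter.unusedSectionVars false

/-! Assembly. -/

namespace Pool.Agent.H.MP_123b7c_lc

open List Relation Classical Pool.Agent.Lib.helper21.CFG Symbol

def tmS {N : Type} : Symbol ℕ N → Option ℕ
  | terminal t => some t
  | nonterminal _ => none

theorem EOL.mem (F : EOL) (w) : w ∈ F.lang ↔ ∃ r, w ∈ Y (F.rules : Set _) tmS r F.start := by
  suffices ∀ l, ReflTransGen F.Step l (w.map terminal) ↔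
      ∃ r, w ∈ (l.map (Y (F.rules : Set _) tmS r)).prod from (this [F.start]).trans (by simp)
  refine fun l => ⟨fun h => ?_, ?_⟩
  · induction h using ReflTransGen.head_induction_on with
    | refl =>
      refine ⟨0, ?_⟩
      induction w with
      | nil => rfl
      | cons t w ih => exact (mp_cons _).2 ⟨_, ⟨t, rfl, rfl⟩, _, ih, rfl⟩
    | head a _ ih =>
      obtain ⟨r, ih⟩ := ih
      obtain ⟨βs, a, rfl⟩ := a
      refine ⟨r + 1, ?_⟩
      clear * - a ih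
      induction a generalizing w with
      | nil => exact ih
      | cons a _ ih' =>
        obtain ⟨u, b, v, c, rfl⟩ := (mp_app _).1 ih
        exact (mp_cons _).2 ⟨u, ⟨_, a, b⟩, v, ih' v c, rfl⟩
  · rintro ⟨r, h⟩
    induction r generalizing l with
    | zero =>
      suffices l = w.map terminal from this ▸ .refl
      induction l generalizing w with
      | nil => rw [(mp_nil _).1 h]; rfl
      | cons x l ih =>
        obtain ⟨_, ⟨t, a, rfl⟩, v, c, rfl⟩ := (mp_cons _).1 h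
        obtain _ | _ := x <;> cases a
        exact congrArg _ (ih v c)
    | succ r ih =>
      suffices ∃ βs, Forall₂ (fun X γ => (X, γ) ∈ F.rules) l βs ∧
          w ∈ (βs.flatten.map (Y (F.rules : Set _) tmS r)).prod from
        let ⟨βs, a, b⟩ := this; .head ⟨βs, a, rfl⟩ (ih _ b)
      clear ih
      induction l generalizing w with
      | nil => exact ⟨[], .nil, h⟩
      | cons x l ih =>
        obtain ⟨u, ⟨α, a, b⟩, v, c, rfl⟩ := (mp_cons _).1 h
        obtain ⟨βs, d, e⟩ := ih v c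
        exact ⟨α :: βs, .cons a d, (mp_app _).2 ⟨u, b, v, e, rfl⟩⟩

theorem Y_emb {V W : Type} {P : Set (V × List V)} {P' : Set (W × List W)} {tm tm'} (e : V → W)
    (hP : ∀ x α', (e x, α') ∈ P' ↔ ∃ α, α' = α.map e ∧ (x, α) ∈ P) (ht : ∀ x, tm' (e x) = tm x) (r : ℕ) :
    ∀ x, Y P' tm' r (e x) = Y P tm r x := by
  induction r with
  | zero => simp [Y, ht]
  | succ r ih =>
    refine fun x => Set.ext fun w => ⟨fun ⟨α', a, b⟩ => ?_, fun ⟨α, a, b⟩ => ⟨_, (hP _ _).2 ⟨α, rfl, a⟩, ?_⟩⟩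
    · obtain ⟨α, rfl, c⟩ := (hP _ _).1 a
      exact ⟨α, c, by simpa only [List.map_map, Function.comp_def, ih] using b⟩
    · simpa only [List.map_map, Function.comp_def, ih] using b

theorem smap_comp {L M N : Type} (h h' : ℕ → ℕ) (f : M → N) (f' : L → M) (x) :
    smap h f (smap h' f' x) = smap (h ∘ h') (f ∘ f') x := by cases x <;> rfl

theorem EInt.trans {A B C : EOL} (a : EInt A B) (b : EInt B C) : EInt A C := by
  obtain ⟨h, f, a, a'⟩ := a
  obtain ⟨h', f', b, b'⟩ := b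
  exact ⟨h' ∘ h, f' ∘ f, by rw [← smap_comp, a, b], fun r e => by
    simpa [Function.comp_def, smap_comp] using b' _ (a' r e)⟩

theorem CInt.trans {A B C : ContextFreeGrammar ℕ} (a : CInt A B) (b : CInt B C) : CInt A C := by
  obtain ⟨h, f, a, a'⟩ := a
  obtain ⟨h', f', b, b'⟩ := b
  exact ⟨h' ∘ h, f' ∘ f, by rw [Function.comp, a, b], fun r e => by
    simpa [Function.comp_def, smap_comp] using b' _ (a' r e)⟩

theorem Pump.tr {A B : Language ℕ} (h : ∀ w, w ≠ [] → (w ∈ A ↔ w ∈ B)) (a : Pump B) : Pump A := by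
  obtain ⟨N, a⟩ := a
  refine ⟨N, fun z b c => ?_⟩
  have d : z ≠ [] := by rintro rfl; simp at c
  obtain ⟨u, v, x, y, t, rfl, e, f, g⟩ := a z ((h z d).1 b) c
  exact ⟨u, v, x, y, t, rfl, e, f, fun i => (h _ (by simp at f ⊢; tauto)).2 (g i)⟩

theorem eol (F : EOL) (h : ∀ w ∈ F.lang, QK w) (h0 : ∀ n, ∃ w ∈ F.lang, ∀ b, n ≤ w.countP (pp b)) :
    ∃ F', EInt F' F ∧ ¬ Pump F'.lang := by
  obtain ⟨V, fV, e, ie, S, hS, P, hP, tot⟩ : ∃ (V : Type) (_ : Finite V) (e : V → Symbol ℕ F.NT),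
      e.Injective ∧ ∃ S, e S = F.start ∧ ∃ P : Set (V × List V),
        (∀ x α', (e x, α') ∈ (F.rules : Set _) ↔ ∃ α, α' = α.map e ∧ (x, α) ∈ P) ∧ ∀ x, ∃ α, (x, α) ∈ P := by
    have k : ∀ (x : {X // ∃ α, (X, α) ∈ F.rules}) α', (x.1, α') ∈ F.rules →
        ∃ α : List {X // ∃ α, (X, α) ∈ F.rules}, α' = α.map Subtype.val := fun x α' a =>
      ⟨α'.attachWith _ fun y e => F.tot y (.inr ⟨_, a, e⟩), by simp [attachWith, map_pmap]⟩
    refine ⟨{X // ∃ α, (X, α) ∈ F.rules}, ((F.rules.finite_toSet.image Prod.fst).subset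
      (t := {X | ∃ α, (X, α) ∈ F.rules}) fun X ⟨α, a⟩ => ⟨_, a, rfl⟩).to_subtype, Subtype.val, Subtype.val_injective,
      ⟨_, F.tot _ (.inl rfl)⟩, rfl, {x | (x.1.1, x.2.map Subtype.val) ∈ F.rules},
      fun x α' => ⟨fun a => ?_, fun ⟨α, a, b⟩ => a ▸ b⟩, fun x => ?_⟩
    · obtain ⟨α, rfl⟩ := k x α' a
      exact ⟨α, rfl, a⟩
    · obtain ⟨α', a⟩ := x.2
      obtain ⟨α, rfl⟩ := k x α' a
      exact ⟨α, a⟩
  have hY : ∀ w, w ∈ F.lang ↔ ∃ r, w ∈ Y P (tmS ∘ e) r S := fun w => by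
    simp only [F.mem, ← hS, Y_emb (tm := tmS ∘ e) e hP fun _ => rfl]
  obtain ⟨L, hL⟩ := (F.rules.finite_toSet.image fun r => r.2.length).bddAbove
  have hL : ∀ x ∈ P, x.2.length ≤ L + 1 := fun x a => by
    have := hL ⟨_, (hP _ _).2 ⟨_, rfl, a⟩, rfl⟩
    simp only [length_map] at this
    omega
  obtain ⟨enc, he⟩ := Countable.exists_injective_nat (Mk V)
  obtain ⟨R, m, hm, k⟩ := nopump (p := pp) (tm := tmS ∘ e) hL (by omega) he (S := S)
    (fun r x u y b a => qk1 b (h _ ((hY _).2 ⟨r, a⟩)))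
    (fun n => let ⟨w, a, b⟩ := h0 n; let ⟨r, c⟩ := (hY w).1 a; ⟨r, w, c, b⟩)
    (qk2 fun w a => h w ((hY w).2 a))
  obtain ⟨g, g1, g2, g3⟩ : ∃ g : V × Mk V → Symbol ℕ (F.NT × Mk V), g.Injective ∧
      (∀ x, smap (fun t => t.unpair.1) Prod.fst (g x) = e x.1) ∧ ∀ x, tmS (g x) = tM (tmS ∘ e) enc x := by
    refine ⟨fun x => smap (fun t => Nat.pair t (enc x.2)) (·, x.2) (e x.1), fun x y a => ?_, fun x => ?_,
      fun x => ?_⟩
    · refine Prod.ext (ie ?_) (he ?_) <;> revert a <;> beta_reduce <;> cases e x.1 <;> cases e y.1 <;>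
        simp +contextual [smap]
    · beta_reduce
      cases e x.1 <;> simp [smap]
    · simp only [tM, Function.comp]
      cases e x.1 <;> rfl
  have fB : {x : V × Mk V | Bd R x.2}.Finite := ((Set.finite_univ (α := V)).prod
    ((((Set.finite_univ.prod (Set.finite_univ.prod (Set.finite_Iic R))).image some)).insert none)).subset (by
      rintro ⟨x, _ | y⟩ a
      exacts [⟨trivial, .inl rfl⟩, ⟨trivial, .inr ⟨y, ⟨trivial, trivial, a y rfl⟩, rfl⟩⟩])
  have fP : (PM P R).Finite := (fB.prod (finL fB (L + 1))).subset fun x a =>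
    ⟨a.2.1, by simpa using hL _ a.1, fun y b => (a.2.2 y b).1⟩
  have t : ∀ y, Bd R y.2 → ∃ α, (g y, α) ∈ (fP.image fun x => (g x.1, x.2.map g)).toFinset := fun y a => by
    obtain ⟨α, b⟩ := tot y.1
    refine ⟨_, (Set.Finite.mem_toFinset _).2 ⟨(y, α.map (·, none)),
      ⟨by simpa [Function.comp_def], a, ?_⟩, rfl⟩⟩
    simp only [mem_map]
    rintro _ ⟨y, -, rfl⟩
    exact ⟨bd0, val0⟩
  refine ⟨⟨_, g (S, m), (fP.image fun x => (g x.1, x.2.map g)).toFinset, ?_⟩,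
    ⟨_, _, (g2 _).trans hS, fun r a => ?_⟩, fun q => k ?_⟩
  · rintro _ (rfl | ⟨r, a, b⟩)
    · exact t _ hm
    · obtain ⟨x, a', rfl⟩ := (Set.Finite.mem_toFinset _).1 a
      obtain ⟨y, c, rfl⟩ := mem_map.1 b
      exact t y (a'.2.2 y c).1
  · obtain ⟨x, b, rfl⟩ := (Set.Finite.mem_toFinset _).1 a
    have := (hP _ _).2 ⟨_, rfl, b.1⟩
    simpa [g2, Function.comp_def] using this
  · refine Pump.tr (fun w _ => .symm ?_) q
    refine (EOL.mem _ w).trans ?_
    simp only [Set.Finite.coe_toFinset]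
    have := Y_emb g (P := PM P R) (P' := (fun x => (g x.1, x.2.map g)) '' PM P R)
      (tm := tM (tmS ∘ e) enc) (fun x α' => ⟨fun ⟨y, a, b⟩ => by
        obtain ⟨b', rfl⟩ := Prod.mk.inj b
        exact ⟨_, rfl, g1 b' ▸ a⟩, fun ⟨α, a, b⟩ => ⟨_, b, by rw [a]⟩⟩) g3
    simp only [this]
    rfl

theorem main (G : ContextFreeGrammar ℕ) (F : EOL) (h1 : Sub (famE F) (famG G))
    (h2 : Sub (famG G) (famE F)) : Sub (famG G) LIN := by
  rintro _ ⟨G', a, rfl⟩
  have fR := G'.rules.finite_toSet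
  by_cases h : Fork (G'.rules : Set _) G'.initial
  swap
  · exact ⟨_, nofork_lin fR h, fun w _ => mem_language_iff_gen G' w⟩
  obtain ⟨_, ⟨F', b, rfl⟩, c⟩ := h2 _ ⟨⟨_, (G'.initial, E 1 * E 3), (RM_fin fR).toFinset⟩,
    CInt.trans ⟨(· / 5), Prod.fst, rfl, fun r e => ((Set.Finite.mem_toFinset _).1 e).1⟩ a, rfl⟩
  simp only [mem_language_iff_gen, Set.Finite.coe_toFinset] at c
  obtain ⟨F'', d, e⟩ := eol F' (fun w q => by
    by_cases k : w = []
    · exact qk (k ▸ ⟨_, ⟨0, rfl⟩, _, ⟨0, rfl⟩, rfl⟩)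
    · exact qk (by simpa [sem] using RM_sound ((c w k).2 q))) fun n => by
    obtain ⟨w, q, q'⟩ := h.lift (n + 1)
    refine ⟨w, (c w (by rintro rfl; simp [mk, replicate_succ] at q')).1 q, ?_⟩
    rintro (_ | _)
    · show n ≤ cn 1 w
      simp [cn_mk, q', count_replicate]
    · show n ≤ cn 4 w
      simp [cn_mk, q', count_replicate]
  obtain ⟨_, ⟨G'', -, rfl⟩, k⟩ := h1 _ ⟨F'', d.trans b, rfl⟩
  exact (e (.tr (fun w q => (k w q).trans (mem_language_iff_gen _ w)) (pump G''.rules.finite_toSet _))).elim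

end Pool.Agent.H.MP_123b7c_lc
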